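import Pool.Agent.H563.PL.Sharp

/-!
# Few arguments
-/

set_option autoImplicit false

namespace Pool.Agent.H563.PL

open Finset Polynomial
open Pool.Agent.Y843.HS (Pr VV Sv VV_split Pr_mem)
open Pool.Agent.Y843.AC (OK Av APs)
open Pool.Agent.K4H8.DP

/-- the factor at one prime -/
lemma fac_arg {D d a b l : ℕ} (hl : l.Prime) (hab : a ≤ b) (hbl : b < l) (h : D < l → b = a + d) :
    1 - (b : ℝ) / l ≤ (if l ≤ D then (2 : ℝ) ^ d else 1) * ((1 - (a : ℝ) / l) * (1 - 1 / (l : ℝ)) ^ d) := by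
  have hl0 : (0 : ℝ) < l := by exact_mod_cast hl.pos
  have hl2 : (2 : ℝ) ≤ l := by exact_mod_cast hl.two_le
  have habr : (a : ℝ) ≤ b := by exact_mod_cast hab
  have hblr : (b : ℝ) < l := by exact_mod_cast hbl
  have hu : 0 ≤ 1 - (a : ℝ) / l := by
    have : (a : ℝ) / l ≤ 1 := by rw [div_le_one hl0]; linarith
    linarith
  have hx : 1 / (l : ℝ) ≤ 1 / 2 := one_div_le_one_div_of_le (by norm_num) hl2
  have hx0 : 0 < 1 / (l : ℝ) := by positivity
  split_ifs with hD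
  · have h1 : 1 - (b : ℝ) / l ≤ 1 - (a : ℝ) / l := by
      have := div_le_div_of_nonneg_right habr hl0.le
      linarith
    have h2 : (1 : ℝ) ≤ 2 ^ d * (1 - 1 / (l : ℝ)) ^ d := by
      rw [← mul_pow]
      apply one_le_pow₀
      linarith
    calc 1 - (b : ℝ) / l ≤ (1 - (a : ℝ) / l) * 1 := by linarith
      _ ≤ (1 - (a : ℝ) / l) * (2 ^ d * (1 - 1 / (l : ℝ)) ^ d) := mul_le_mul_of_nonneg_left h2 hu
      _ = _ := by ring
  · rw [one_mul]
    have hb := h (by omega)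
    have h3 : 1 - (d : ℝ) / l ≤ (1 - 1 / (l : ℝ)) ^ d := by
      have := one_add_mul_le_pow (show (-2 : ℝ) ≤ -(1 / (l : ℝ)) by linarith) d
      calc 1 - (d : ℝ) / l = 1 + (d : ℝ) * -(1 / (l : ℝ)) := by ring
        _ ≤ (1 + -(1 / (l : ℝ))) ^ d := this
        _ = _ := by ring
    have h4 : 1 - (b : ℝ) / l ≤ (1 - (a : ℝ) / l) * (1 - (d : ℝ) / l) := by
      have e : (1 - (a : ℝ) / l) * (1 - (d : ℝ) / l) = 1 - (b : ℝ) / l + (a : ℝ) / l * ((d : ℝ) / l) := by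
        rw [hb]
        push_cast
        ring
      rw [e]
      have : 0 ≤ (a : ℝ) / l * ((d : ℝ) / l) := by positivity
      linarith
    exact h4.trans (mul_le_mul_of_nonneg_left h3 hu)

/-- the number of the arguments -/
lemma arg_bound (d₀ d : ℕ) (κ : ℝ) (hκ : 0 < κ) : ∃ C : ℝ, 0 < C ∧ ∃ N₀ : ℕ, ∀ N : ℕ, N₀ ≤ N → ∀ N₁ : ℕ,
    ∀ Z₀ : ℕ → Finset ℕ, Good d₀ Z₀ → ∀ T : ℕ → Finset ℕ, ∀ z : ℕ, z = ⌊Real.log N / 4⌋₊ →
    (∀ l : ℕ, l.Prime → l ≤ z → (Z₀ l ∪ T l).card < l) →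
    (∀ l : ℕ, l.Prime → l ≤ z → (T l).card ≤ d ∧ ∀ c ∈ T l, c < l) →
    (∀ l : ℕ, l.Prime → d₀ + d < l → l ≤ z → (Z₀ l ∪ T l).card = (Z₀ l).card + d) →
    ∀ R ⊆ Ioc N₁ (N₁ + N), (∀ n ∈ R, (∀ l : ℕ, l.Prime → (l : ℝ) ≤ (N : ℝ) ^ κ → n % l ∉ Z₀ l) ∧
      (∀ l : ℕ, l.Prime → l ≤ z → n % l ∉ T l)) →
    (R.card : ℝ) * Real.log (Real.log N) ^ d ≤ C * (N * VV Z₀ 0 N) := by
  classical
  obtain ⟨D, hD⟩ : ∃ D, D = d₀ + d := ⟨_, rfl⟩
  obtain ⟨C, hC, X₀, hS⟩ := sbD D κ hκ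
  obtain ⟨C₁, hC₁, N₂, hcomp⟩ := compD D κ hκ
  obtain ⟨a₀, b₀, ha₀, hb₀, hM⟩ := Pool.Agent.Results.MP_7b7e48_nt.DeletedPrimes.mert_ex
  have ev1 := Real.tendsto_log_atTop.eventually (Filter.eventually_ge_atTop (64 : ℝ))
  have ev2 := (isLittleO_log_rpow_atTop hκ).bound (show (0 : ℝ) < 1 by norm_num)
  obtain ⟨x₀, hx₀⟩ := Filter.eventually_atTop.1 (ev1.and ev2)
  refine ⟨C * (2 ^ d) ^ D * (1 / a₀) ^ d * C₁ * 2 ^ d, by positivity, max (max X₀ N₂) (max ⌈x₀⌉₊ 2), ?_⟩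
  intro N hN N₁ Z₀ hZ₀ T z hz hT1 hT2 hT3 R hR hRa
  have hNX : X₀ ≤ N := (le_max_left _ _).trans ((le_max_left _ _).trans hN)
  have hNN : N₂ ≤ N := (le_max_right _ _).trans ((le_max_left _ _).trans hN)
  have hNx : ⌈x₀⌉₊ ≤ N := (le_max_left _ _).trans ((le_max_right _ _).trans hN)
  have hN2 : 2 ≤ N := (le_max_right _ _).trans ((le_max_right _ _).trans hN)
  have hNr : (0 : ℝ) < N := by exact_mod_cast (by omega : 0 < N)
  obtain ⟨hl64, hlk⟩ := hx₀ N ((Nat.le_ceil _).trans (by exact_mod_cast hNx))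
  have hlogκ : Real.log N ≤ (N : ℝ) ^ κ := by
    rw [Real.norm_eq_abs, Real.norm_eq_abs, abs_of_nonneg (by linarith), abs_of_nonneg (by positivity), one_mul] at hlk
    exact hlk
  obtain ⟨y, hy⟩ : ∃ y, y = ⌊(N : ℝ) ^ κ⌋₊ := ⟨_, rfl⟩
  have hzy : z ≤ y := by
    rw [hy, hz]
    apply Nat.floor_le_floor
    linarith
  have hz16 : 16 ≤ z := by
    rw [hz]
    apply Nat.le_floor
    push_cast
    linarith
  have hzlow : Real.log N / 8 ≤ z := by
    have := Nat.lt_floor_add_one (Real.log N / 4)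
    rw [← hz] at this
    have : (16 : ℝ) ≤ z := by exact_mod_cast hz16
    linarith
  obtain ⟨Z, hZ⟩ : ∃ Z : ℕ → Finset ℕ, Z = fun l => if l ≤ z then Z₀ l ∪ T l else Z₀ l := ⟨_, rfl⟩
  have hZg : Good D Z := by
    intro l hl
    obtain ⟨b1, b2, b3⟩ := hZ₀ l hl
    rw [hZ]
    simp only
    split_ifs with h
    · obtain ⟨c1, c2⟩ := hT2 l hl h
      refine ⟨(card_union_le _ _).trans (by omega), hT1 l hl h, ?_⟩
      intro c hc
      rcases mem_union.1 hc with hc | hc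
      · exact b3 c hc
      · exact c2 c hc
    · exact ⟨b1.trans (by omega), b2, b3⟩
  have h1 := hS N N₁ hNX Z (fun p hp _ => hZg p hp) R hR (by
    intro n hn l hl hlN
    obtain ⟨g1, g2⟩ := hRa n hn
    rw [hZ]
    simp only
    split_ifs with h
    · rw [mem_union]
      rintro (hc | hc)
      · exact g1 l hl hlN hc
      · exact g2 l hl h hc
    · exact g1 l hl hlN)
  rw [← hy] at h1
  -- the product up to `z`
  have h2 : VV Z 0 z ≤ (2 ^ d) ^ D * (VV Z₀ 0 z * (W1 z)⁻¹ ^ d) := by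
    unfold VV
    rw [Pr_eq]
    have g1 : ∏ p ∈ (Ioc 0 z).filter Nat.Prime, (1 - ((Z p).card : ℝ) / p) ≤
        ∏ p ∈ (Ioc 0 z).filter Nat.Prime, ((if p ≤ D then (2 : ℝ) ^ d else 1) *
          ((1 - ((Z₀ p).card : ℝ) / p) * (1 - 1 / (p : ℝ)) ^ d)) := by
      apply prod_le_prod
      · intro p hp
        exact (fac_pos hZg (mem_filter.1 hp).2).le
      · intro p hp
        rw [mem_filter, mem_Ioc] at hp
        have e : Z p = Z₀ p ∪ T p := by rw [hZ]; simp only; rw [if_pos hp.1.2]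
        rw [e]
        exact fac_arg hp.2 (card_le_card subset_union_left) (hT1 p hp.2 hp.1.2) (fun h => hT3 p hp.2 (by omega) hp.1.2)
    refine g1.trans ?_
    rw [prod_mul_distrib, prod_mul_distrib, prod_pow, W1_prod]
    have g2 : 0 ≤ ∏ p ∈ (Ioc 0 z).filter Nat.Prime, (1 - ((Z₀ p).card : ℝ) / p) :=
      prod_nonneg fun p hp => (fac_pos hZ₀ (mem_filter.1 hp).2).le
    have g3 : 0 ≤ (W1 z)⁻¹ ^ d := pow_nonneg (inv_pos.2 (W1_pos z)).le _
    apply mul_le_mul_of_nonneg_right _ (mul_nonneg g2 g3)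
    rw [← prod_filter, prod_const]
    apply pow_le_pow_right₀
    · exact one_le_pow₀ (by norm_num)
    · calc (((Ioc 0 z).filter Nat.Prime).filter (fun p => p ≤ D)).card ≤ (Ioc 0 D).card := by
            apply card_le_card
            intro p hp
            rw [mem_filter, mem_filter, mem_Ioc] at hp
            rw [mem_Ioc]
            exact ⟨hp.1.1.1, hp.2⟩
        _ = D := by rw [Nat.card_Ioc, Nat.sub_zero]
  have h3 : VV Z z y = VV Z₀ z y := by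
    unfold VV
    apply prod_congr rfl
    intro p hp
    have : ¬ p ≤ z := by
      have := (Pr_mem.1 hp).1
      omega
    have e : Z p = Z₀ p := by rw [hZ]; simp only; rw [if_neg this]
    rw [e]
  have h4 : VV Z 0 z * VV Z z y = VV Z 0 y := VV_split Z (Nat.zero_le z) hzy
  have h5 : VV Z₀ 0 z * VV Z₀ z y = VV Z₀ 0 y := VV_split Z₀ (Nat.zero_le z) hzy
  have h6 := VV_pos hZ₀ z y
  have h7 : VV Z 0 y ≤ (2 ^ d) ^ D * (VV Z₀ 0 y * (W1 z)⁻¹ ^ d) := by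
    rw [← h4, h3, ← h5]
    calc VV Z 0 z * VV Z₀ z y ≤ ((2 ^ d) ^ D * (VV Z₀ 0 z * (W1 z)⁻¹ ^ d)) * VV Z₀ z y :=
          mul_le_mul_of_nonneg_right h2 h6.le
      _ = _ := by ring
  have h8 := hcomp N hNN Z₀ (hZ₀.mono (by omega))
  rw [← hy] at h8
  have hlz : 0 < Real.log z := Real.log_pos (by exact_mod_cast (by omega : 1 < z))
  have hWz : (W1 z)⁻¹ ≤ 1 / a₀ / Real.log z := by
    have h1 := (hM z (by omega)).1
    have h3 : 1 / a₀ / Real.log z = (a₀ * Real.log z)⁻¹ := by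
      field_simp
    rw [h3]
    exact inv_anti₀ (by positivity) h1
  have hWz0 : 0 < (W1 z)⁻¹ := inv_pos.2 (W1_pos z)
  have hll : Real.log (Real.log N) ≤ 2 * Real.log z := by
    have hz0 : (0 : ℝ) < z := by linarith
    have : Real.log N ≤ (z : ℝ) ^ 2 := by
      have : (16 : ℝ) ≤ z := by exact_mod_cast hz16
      nlinarith
    have h2 := Real.log_le_log (by linarith) this
    rw [Real.log_pow] at h2
    push_cast at h2
    exact h2
  have hll0 : 0 ≤ Real.log (Real.log N) := Real.log_nonneg (by linarith)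
  have hV0 := VV_pos hZ₀ 0 N
  have hV0y := VV_pos hZ₀ 0 y
  have hq : (W1 z)⁻¹ ^ d * Real.log (Real.log N) ^ d ≤ (1 / a₀) ^ d * 2 ^ d := by
    rw [← mul_pow, ← mul_pow]
    apply pow_le_pow_left₀ (mul_nonneg hWz0.le hll0)
    calc (W1 z)⁻¹ * Real.log (Real.log N) ≤ (1 / a₀ / Real.log z) * (2 * Real.log z) :=
          mul_le_mul hWz hll hll0 (by positivity)
      _ = 1 / a₀ * 2 := by field_simp
  calc (R.card : ℝ) * Real.log (Real.log N) ^ d
      ≤ (C * N * ((2 ^ d) ^ D * (VV Z₀ 0 y * (W1 z)⁻¹ ^ d))) * Real.log (Real.log N) ^ d := by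
        apply mul_le_mul_of_nonneg_right _ (by positivity)
        exact h1.trans (mul_le_mul_of_nonneg_left h7 (by positivity))
    _ = C * N * (2 ^ d) ^ D * VV Z₀ 0 y * ((W1 z)⁻¹ ^ d * Real.log (Real.log N) ^ d) := by ring
    _ ≤ C * N * (2 ^ d) ^ D * (C₁ * VV Z₀ 0 N) * ((1 / a₀) ^ d * 2 ^ d) := by
        apply mul_le_mul _ hq (by positivity) (by positivity)
        exact mul_le_mul_of_nonneg_left h8 (by positivity)
    _ = _ := by ring

end Pool.Agent.H563.PL
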