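import Pool.Agent.H563.PL.Gen

/-!
# The choice for arbitrary sets of polynomials
-/

set_option autoImplicit false

namespace Pool.Agent.H563.PL

open Finset Polynomial
open Pool.Agent.Y843.HS (Pr VV Sv VV_split Pr_mem)

/-- the conditions on the set of polynomials -/
def Adm (f₀ : ℤ[X]) (d H : ℕ) (S : Finset ℤ[X]) : Prop :=
  (∀ f ∈ S, 1 ≤ f.natDegree ∧ f.natDegree ≤ d ∧ (∀ i, |f.coeff i| ≤ H) ∧ NoFixed (f₀ * f)) ∧
    ∀ f ∈ S, ∀ g ∈ S, f ≠ g → IsCoprime (f.map (Int.castRingHom ℚ)) (g.map (Int.castRingHom ℚ))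

lemma order_pos {f : ℤ[X]} (h : NoFixed f) {N : ℕ} (hN : 1 ≤ N) : 0 < order f N := by
  unfold order
  have h1 := VV_pos (good_of h le_rfl) 0 N
  have h2 : (0 : ℝ) < N := by exact_mod_cast hN
  positivity

/-- the choice in given sets of arguments -/
lemma genP (d₀ d B : ℕ) (κ : ℝ) (hκ : 0 < κ) (hκ1 : κ ≤ 1) (δ : ℝ) (hδ : 0 < δ) : ∃ c : ℝ, 0 < c ∧ ∃ N₀ : ℕ,
    ∀ N : ℕ, N₀ ≤ N → ∀ N₁ : ℕ, ∀ f₀ : ℤ[X], f₀.natDegree ≤ d₀ → ∀ S : Finset ℤ[X], Adm f₀ d (N ^ B) S →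
    ∀ t K : ℕ, 1 ≤ K → (∀ f ∈ S, (t : ℝ) ≤ c * order (f₀ * f) N) →
    (t : ℝ) * S.card * Real.log (Real.log N) ^ d ≤ c * K * order f₀ N →
    ∀ A : ℤ[X] → Finset ℕ, (∀ f ∈ S, A f ⊆ Ioc N₁ (N₁ + N) ∧ (∀ n ∈ A f, Rough ((N : ℝ) ^ κ) (f₀ * f) n) ∧
      δ * order (f₀ * f) N ≤ (A f).card) →
    ∃ n : ℤ[X] → ℕ → ℕ, (∀ f ∈ S, ∀ i < t, n f i ∈ A f) ∧ (∀ f ∈ S, ∀ i < t, ∀ j < t, n f i = n f j → i = j) ∧
      ∀ v, ((S ×ˢ range t).filter (fun y => n y.1 y.2 = v)).card ≤ K := by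
  classical
  obtain ⟨K₁, hK₁, N₀, hN₀, hups⟩ := upsP d₀ d (2 * d * B + 1) κ hκ hκ1
  obtain ⟨c, hc, hload⟩ := load_gen (ι := ℤ[X]) hδ hK₁
  have ev := Real.tendsto_log_atTop.eventually (Filter.eventually_ge_atTop (1 : ℝ))
  obtain ⟨x₀, hx₀⟩ := Filter.eventually_atTop.1 ev
  refine ⟨c, hc, max (max N₀ (2 * d).factorial) ⌈x₀⌉₊, ?_⟩
  intro N hN N₁ f₀ hf₀ S hS t K hK ht hSt A hA
  have hN' : N₀ ≤ N := (le_max_left _ _).trans ((le_max_left _ _).trans hN)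
  have hNf : (2 * d).factorial ≤ N := (le_max_right _ _).trans ((le_max_left _ _).trans hN)
  have hlog := hx₀ N ((Nat.le_ceil _).trans (by exact_mod_cast (le_max_right _ _).trans hN))
  have hN1 : 1 ≤ N := by omega
  obtain ⟨hu1, hu2⟩ := hups N hN' N₁ f₀ hf₀
  rcases S.eq_empty_or_nonempty with rfl | ⟨f₁, hf₁⟩
  · exact ⟨fun _ _ => 0, by simp, by simp, by simp⟩
  have h0 : NoFixed f₀ := noFixed_left (hS.1 f₁ hf₁).2.2.2
  have hO0 := order_pos h0 hN1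
  have hll : 0 ≤ Real.log (Real.log N) := Real.log_nonneg hlog
  apply hload S A (fun f => order (f₀ * f) N) (order f₀ N) (Real.log (Real.log N) ^ d) t K hO0 hK (by positivity)
  · intro f hf
    exact order_pos (hS.1 f hf).2.2.2 hN1
  · intro f hf
    exact (hA f hf).2.2
  · intro f hf
    exact hu1 f (hS.1 f hf).2.1 (hS.1 f hf).2.2.2 (A f) (hA f hf).1 (hA f hf).2.1
  · intro f hf g hg hfg
    obtain ⟨a1, a2, a3, a4⟩ := hS.1 f hf
    obtain ⟨b1, b2, b3, b4⟩ := hS.1 g hg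
    obtain ⟨R, hR1, hR2, hR3⟩ := res_ex a2 b2 a1 (Nat.one_le_pow _ _ hN1) a3 b3 (hS.2 f hf g hg hfg)
    apply hu2 f g a2 b2 a4 b4 R hR1 _ hR3 (A f ∩ A g)
    · exact inter_subset_left.trans (hA f hf).1
    · intro n hn
      rw [mem_inter] at hn
      exact ⟨(hA f hf).2.1 n hn.1, (hA g hg).2.1 n hn.2⟩
    · refine hR2.trans ?_
      calc (2 * d).factorial * (N ^ B) ^ (2 * d) ≤ N * (N ^ B) ^ (2 * d) := Nat.mul_le_mul_right _ hNf
        _ = N ^ (2 * d * B + 1) := by rw [← pow_mul]; ring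
  · exact ht
  · calc (t : ℝ) * (S.card * Real.log (Real.log N) ^ d) = t * S.card * Real.log (Real.log N) ^ d := by ring
      _ ≤ _ := hSt

/-- the values are not large -/
lemma eval_bd {f : ℤ[X]} {D H : ℕ} (hf : f.natDegree ≤ D) (hH : 1 ≤ H) (hc : ∀ i, |f.coeff i| ≤ H) {n : ℕ} (hn : n ≤ H) :
    (f.eval (n : ℤ)).natAbs ≤ (D + 1) * H ^ (D + 1) := by
  have h1 : |f.eval (n : ℤ)| ≤ ((D + 1) * H ^ (D + 1) : ℕ) := by
    rw [eval_eq_sum_range' (show f.natDegree < D + 1 by omega)]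
    refine (abs_sum_le_sum_abs _ _).trans ?_
    have h2 : ∀ i ∈ range (D + 1), |f.coeff i * (n : ℤ) ^ i| ≤ ((H ^ (D + 1) : ℕ) : ℤ) := by
      intro i hi
      rw [mem_range] at hi
      rw [abs_mul, abs_pow, Nat.abs_cast]
      calc |f.coeff i| * (n : ℤ) ^ i ≤ (H : ℤ) * (H : ℤ) ^ i := by
            apply mul_le_mul (hc i) _ (by positivity) (by positivity)
            exact pow_le_pow_left₀ (by positivity) (by exact_mod_cast hn) i
        _ = (H : ℤ) ^ (i + 1) := by ring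
        _ ≤ (H : ℤ) ^ (D + 1) := by
            apply pow_le_pow_right₀ (by exact_mod_cast hH)
            omega
        _ = _ := by push_cast; rfl
    refine (sum_le_sum h2).trans ?_
    rw [sum_const, card_range, nsmul_eq_mul]
    push_cast
    exact le_rfl
  have h3 : (((f.eval (n : ℤ)).natAbs : ℕ) : ℤ) ≤ ((D + 1) * H ^ (D + 1) : ℕ) := by
    rw [Int.natCast_natAbs]
    exact h1
  exact_mod_cast h3

/-- numbers without small prime factors have few prime factors -/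
lemma few {κ : ℝ} (hκ : 0 < κ) {N E m : ℕ} (hN : 2 ≤ N) (hm : m ≤ N ^ E)
    (h : ∀ q : ℕ, q.Prime → q ∣ m → (N : ℝ) ^ κ < q) : m.primeFactorsList.length ≤ ⌈(E : ℝ) / κ⌉₊ := by
  rcases Nat.eq_zero_or_pos m with h0 | h0
  · rw [h0]
    simp
  have hN0 : (0 : ℝ) < N := by exact_mod_cast (by omega : 0 < N)
  have hlN : 0 < Real.log N := Real.log_pos (by exact_mod_cast (by omega : 1 < N))
  have h1 : ((N : ℝ) ^ κ) ^ m.primeFactorsList.length ≤ m := by
    have h2 : ((m.primeFactorsList.prod : ℕ) : ℝ) = m := by rw [Nat.prod_primeFactorsList h0.ne']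
    rw [← h2]
    have h3 : ∀ L : List ℕ, (∀ q ∈ L, (N : ℝ) ^ κ < q) → ((N : ℝ) ^ κ) ^ L.length ≤ ((L.prod : ℕ) : ℝ) := by
      intro L
      induction L with
      | nil => intro _; simp
      | cons a L ih =>
        intro hL
        rw [List.length_cons, List.prod_cons, pow_succ, mul_comm, Nat.cast_mul]
        apply mul_le_mul (hL a List.mem_cons_self).le (ih fun q hq => hL q (List.mem_cons_of_mem _ hq)) (by positivity)
          (by positivity)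
    apply h3
    intro q hq
    exact h q (Nat.prime_of_mem_primeFactorsList hq) (Nat.dvd_of_mem_primeFactorsList hq)
  have h2 : (m : ℝ) ≤ (N : ℝ) ^ E := by exact_mod_cast hm
  have h3 := Real.log_le_log (by positivity) (h1.trans h2)
  rw [Real.log_pow, Real.log_pow, Real.log_rpow hN0] at h3
  have h4 : (m.primeFactorsList.length : ℝ) * κ ≤ E := by
    by_contra hcon
    push Not at hcon
    have := mul_lt_mul_of_pos_right hcon hlN
    nlinarith
  have h5 : (m.primeFactorsList.length : ℝ) ≤ E / κ := by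
    rw [le_div_iff₀ hκ]
    exact h4
  exact_mod_cast h5.trans (Nat.le_ceil _)

end Pool.Agent.H563.PL
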