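import Pool.Agent.H563.PL.Pol
import Pool.Agent.H563.QA.Abs

/-!
# Bounded load for arbitrary index sets
-/

set_option autoImplicit false

namespace Pool.Agent.H563.PL

open Finset Polynomial
open Pool.Agent.Y843.HS (Pr VV Sv VV_split Pr_mem)
open Pool.Agent.Y843.AC (OK Av APs)

/-- systems with bounded load, for any type of indices -/
lemma load_gen {ι : Type} [DecidableEq ι] {δ K₁ : ℝ} (hδ : 0 < δ) (hK₁ : 0 < K₁) : ∃ c : ℝ, 0 < c ∧
    ∀ (S : Finset ι) (A : ι → Finset ℕ) (O : ι → ℝ) (D Q : ℝ) (t K : ℕ), 0 < D → 1 ≤ K → 0 ≤ Q →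
    (∀ a ∈ S, 0 < O a) → (∀ a ∈ S, δ * O a ≤ (A a).card) → (∀ a ∈ S, ((A a).card : ℝ) ≤ K₁ * O a) →
    (∀ a ∈ S, ∀ b ∈ S, a ≠ b → ((A a ∩ A b).card : ℝ) ≤ K₁ * (O a * O b / D * Q)) →
    (∀ a ∈ S, (t : ℝ) ≤ c * O a) → t * (S.card * Q) ≤ c * K * D →
    ∃ p : ι → ℕ → ℕ, (∀ a ∈ S, ∀ i < t, p a i ∈ A a) ∧ (∀ a ∈ S, ∀ i < t, ∀ j < t, p a i = p a j → i = j) ∧
      ∀ v, ((S ×ˢ range t).filter (fun y => p y.1 y.2 = v)).card ≤ K := by
  classical
  obtain ⟨c, hc, h⟩ := Pool.Agent.H563.QA.load_abs hδ hK₁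
  refine ⟨c, hc, ?_⟩
  intro S A O D Q t K hD hK hQ hO hl h2 h3 ht hQS
  -- the index function
  obtain ⟨idx, hidx⟩ : ∃ idx : ι → ℕ, Set.InjOn idx S := by
    refine ⟨fun a => if h : a ∈ S then (S.equivFin ⟨a, h⟩).val else 0, ?_⟩
    intro a ha b hb hab
    rw [mem_coe] at ha hb
    simp only [dif_pos ha, dif_pos hb] at hab
    have h1 := S.equivFin.injective (Fin.ext hab)
    exact congrArg Subtype.val h1
  rcases S.eq_empty_or_nonempty with rfl | ⟨a₁, ha₁⟩
  · exact ⟨fun _ _ => 0, by simp, by simp, by simp⟩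
  haveI : Nonempty ι := ⟨a₁⟩
  obtain ⟨el, hel⟩ : ∃ el : ℕ → ι, ∀ a ∈ S, el (idx a) = a :=
    ⟨Function.invFunOn idx S, fun a ha => hidx.leftInvOn_invFunOn (mem_coe.2 ha)⟩
  have hcard : (S.image idx).card = S.card := card_image_of_injOn hidx
  obtain ⟨p, hp1, hp2, hp3⟩ := h (S.image idx) (fun i => A (el i)) (fun i => O (el i)) (fun _ _ => Q) D
    (S.card * Q) t K hD hK (by
      intro i hi
      obtain ⟨a, ha, rfl⟩ := mem_image.1 hi
      rw [hel a ha]
      exact hO a ha) (fun _ _ => hQ) (by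
      intro i hi
      obtain ⟨a, ha, rfl⟩ := mem_image.1 hi
      rw [hel a ha]
      exact hl a ha) (by
      intro i hi
      obtain ⟨a, ha, rfl⟩ := mem_image.1 hi
      rw [hel a ha]
      exact h2 a ha) (by
      intro i hi j hj hij
      obtain ⟨a, ha, rfl⟩ := mem_image.1 hi
      obtain ⟨b, hb, rfl⟩ := mem_image.1 hj
      rw [hel a ha, hel b hb]
      exact h3 a ha b hb (fun e => hij (by rw [e]))) (by
      intro i hi
      rw [sum_const, nsmul_eq_mul]
      apply mul_le_mul_of_nonneg_right _ hQ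
      have := card_le_card (erase_subset i (S.image idx))
      rw [hcard] at this
      exact_mod_cast this) (by
      intro i hi
      obtain ⟨a, ha, rfl⟩ := mem_image.1 hi
      rw [hel a ha]
      exact ht a ha) hQS
  refine ⟨fun a i => p (idx a) i, ?_, ?_, ?_⟩
  · intro a ha i hi
    have := hp1 (idx a) (mem_image_of_mem _ ha) i hi
    rwa [hel a ha] at this
  · intro a ha i hi j hj hij
    exact hp2 (idx a) (mem_image_of_mem _ ha) i hi j hj hij
  · intro v
    refine le_trans ?_ (hp3 v)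
    apply card_le_card_of_injOn (fun y => (idx y.1, y.2))
    · rintro ⟨a, i⟩ hy
      rw [mem_coe, mem_filter, mem_product] at hy
      rw [mem_coe, mem_filter, mem_product]
      exact ⟨⟨mem_image_of_mem _ hy.1.1, hy.1.2⟩, hy.2⟩
    · rintro ⟨a, i⟩ hy ⟨b, j⟩ hy' hab
      rw [mem_coe, mem_filter, mem_product] at hy hy'
      simp only [Prod.mk.injEq] at hab ⊢
      exact ⟨hidx (mem_coe.2 hy.1.1) (mem_coe.2 hy'.1.1) hab.1, hab.2⟩

/-- `f(n)` has no prime factor up to `w` -/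
def Rough (w : ℝ) (f : ℤ[X]) (n : ℕ) : Prop := ∀ l : ℕ, l.Prime → (l : ℝ) ≤ w → ¬ (l : ℤ) ∣ f.eval (n : ℤ)

/-- the expected order of the number of the `n ≤ N` for which `f(n)` has no small prime factors -/
noncomputable def order (f : ℤ[X]) (N : ℕ) : ℝ := N * VV (roots f) 0 N

/-- no prime divides all the values of `f` -/
def NoFixed (f : ℤ[X]) : Prop := ∀ l : ℕ, l.Prime → (roots f l).card < l

lemma good_of {f : ℤ[X]} {D : ℕ} (h : NoFixed f) (hD : f.natDegree ≤ D) : Good D (roots f) := by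
  intro l hl
  refine ⟨(roots_card_le hl (h l hl)).trans hD, h l hl, ?_⟩
  intro c hc
  exact (mem_roots.1 hc).1

lemma VV_congr {Z Z' : ℕ → Finset ℕ} (h : ∀ l : ℕ, l.Prime → Z l = Z' l) (x y : ℕ) : VV Z x y = VV Z' x y := by
  unfold VV
  apply prod_congr rfl
  intro p hp
  rw [h p (Pr_mem.1 hp).2]

lemma noFixed_left {f g : ℤ[X]} (h : NoFixed (f * g)) : NoFixed f := by
  intro l hl
  refine lt_of_le_of_lt ?_ (h l hl)
  rw [roots_mul hl]
  exact card_le_card subset_union_left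

lemma noFixed_right {f g : ℤ[X]} (h : NoFixed (f * g)) : NoFixed g := by
  intro l hl
  refine lt_of_le_of_lt ?_ (h l hl)
  rw [roots_mul hl]
  exact card_le_card subset_union_right

/-- the bounds for one and two members -/
lemma upsP (d₀ d E : ℕ) (κ : ℝ) (hκ : 0 < κ) (hκ1 : κ ≤ 1) : ∃ K : ℝ, 0 < K ∧ ∃ N₀ : ℕ, 2 ≤ N₀ ∧ ∀ N : ℕ, N₀ ≤ N →
    ∀ A : ℕ, ∀ f₀ : ℤ[X], f₀.natDegree ≤ d₀ →
    (∀ f : ℤ[X], f.natDegree ≤ d → NoFixed (f₀ * f) → ∀ P ⊆ Ioc A (A + N), (∀ n ∈ P, Rough ((N : ℝ) ^ κ) (f₀ * f) n) →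
      (P.card : ℝ) ≤ K * order (f₀ * f) N) ∧
    (∀ f g : ℤ[X], f.natDegree ≤ d → g.natDegree ≤ d → NoFixed (f₀ * f) → NoFixed (f₀ * g) →
      ∀ R : ℕ, 0 < R → R ≤ N ^ E → (∀ (l : ℕ) (n : ℤ), (l : ℤ) ∣ f.eval n → (l : ℤ) ∣ g.eval n → l ∣ R) →
      ∀ P ⊆ Ioc A (A + N), (∀ n ∈ P, Rough ((N : ℝ) ^ κ) (f₀ * f) n ∧ Rough ((N : ℝ) ^ κ) (f₀ * g) n) →
      (P.card : ℝ) ≤ K * (order (f₀ * f) N * order (f₀ * g) N / order f₀ N * Real.log (Real.log N) ^ d)) := by
  classical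
  obtain ⟨D, hD⟩ : ∃ D, D = d₀ + d := ⟨_, rfl⟩
  obtain ⟨C, hC, X₀, hS⟩ := sbD (2 * D) κ hκ
  obtain ⟨C₁, hC₁, N₁, hcomp⟩ := compD D κ hκ
  obtain ⟨C₂, hC₂, hpair⟩ := VV_pair D d (by omega)
  obtain ⟨C₃, hC₃, N₃, hbad⟩ := bad_prod E
  refine ⟨C * C₁ + C * C₂ * C₁ ^ 2 * C₃ ^ d, by positivity, max (max X₀ N₁) (max N₃ 2),
    (le_max_right _ _).trans (le_max_right _ _), fun N hN A f₀ hf₀ => ?_⟩
  have hN2 : 2 ≤ N := (le_max_right _ _).trans ((le_max_right _ _).trans hN)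
  have hNr : (0 : ℝ) < N := by exact_mod_cast (by omega : 0 < N)
  have hN1r : (1 : ℝ) ≤ N := by exact_mod_cast (by omega : 1 ≤ N)
  have hsv := hS N A ((le_max_left _ _).trans ((le_max_left _ _).trans hN))
  have hcm := hcomp N ((le_max_right _ _).trans ((le_max_left _ _).trans hN))
  have hb3 := hbad N ((le_max_left _ _).trans ((le_max_right _ _).trans hN))
  obtain ⟨y, hy⟩ : ∃ y, y = ⌊(N : ℝ) ^ κ⌋₊ := ⟨_, rfl⟩
  rw [← hy] at hsv hcm
  have hyN : y ≤ N := by
    rw [hy]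
    have : (N : ℝ) ^ κ ≤ N := by
      calc (N : ℝ) ^ κ ≤ (N : ℝ) ^ (1 : ℝ) := Real.rpow_le_rpow_of_exponent_le hN1r hκ1
        _ = N := Real.rpow_one _
    exact (Nat.floor_le_floor this).trans (by rw [Nat.floor_natCast])
  have hgood : ∀ f : ℤ[X], f.natDegree ≤ d → NoFixed (f₀ * f) → Good D (roots (f₀ * f)) := by
    intro f hf hnf
    apply good_of hnf
    exact natDegree_mul_le.trans (by omega)
  refine ⟨?_, ?_⟩
  · intro f hf hnf P hP hPa
    have hg := hgood f hf hnf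
    have h1 := hsv (roots (f₀ * f)) (by
      intro p hp _
      obtain ⟨a1, a2, a3⟩ := hg p hp
      exact ⟨a1.trans (by omega), a2, a3⟩) P hP (by
      intro n hn l hl hlN
      rw [mod_mem_roots hl.pos]
      exact hPa n hn l hl hlN)
    have h2 := hcm (roots (f₀ * f)) hg
    have h3 := VV_pos hg 0 N
    unfold order
    calc (P.card : ℝ) ≤ C * N * VV (roots (f₀ * f)) 0 y := h1
      _ ≤ C * N * (C₁ * VV (roots (f₀ * f)) 0 N) := mul_le_mul_of_nonneg_left h2 (by positivity)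
      _ = (C * C₁) * (N * VV (roots (f₀ * f)) 0 N) := by ring
      _ ≤ _ := by
          apply mul_le_mul_of_nonneg_right _ (by positivity)
          have : 0 ≤ C * C₂ * C₁ ^ 2 * C₃ ^ d := by positivity
          linarith
  · intro f g hf hg hnf hng R hR hRE hres P hP hPa
    have gf := hgood f hf hnf
    have gg := hgood g hg hng
    have g0 : Good D (roots f₀) := good_of (noFixed_left hnf) (by omega)
    have ef : ∀ l : ℕ, l.Prime → roots (f₀ * f) l = roots f₀ l ∪ roots f l := fun l hl => roots_mul hl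
    have eg : ∀ l : ℕ, l.Prime → roots (f₀ * g) l = roots f₀ l ∪ roots g l := fun l hl => roots_mul hl
    have gf' : Good D (fun l => roots f₀ l ∪ roots f l) := by
      intro l hl
      have := gf l hl
      rwa [ef l hl] at this
    have gg' : Good D (fun l => roots f₀ l ∪ roots g l) := by
      intro l hl
      have := gg l hl
      rwa [eg l hl] at this
    have hZ := Zt_good gf' gg'
    have h1 := hsv (Zt D (roots f₀) (roots f) (roots g)) (fun p hp _ => hZ p hp) P hP (by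
      intro n hn l hl hlN
      unfold Zt
      split_ifs with h8
      · exact notMem_empty _
      · rw [← ef l hl, mem_union, mod_mem_roots hl.pos, mod_mem_roots hl.pos]
        rintro (hc | hc)
        · exact (hPa n hn).1 l hl hlN hc
        · apply (hPa n hn).2 l hl hlN
          rw [eval_mul]
          exact hc.mul_left _)
    have h2 := hpair (roots f₀) (roots f) (roots g) gf' gg' (by
      intro l hl
      exact (roots_card_le hl (noFixed_right hnf l hl)).trans hf) y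
    rw [← VV_congr ef, ← VV_congr eg] at h2
    have h3 := hb3 (roots f₀) (roots f) (roots g) R hR hRE (by
      intro l hl hb
      unfold Bad at hb
      rw [Finset.not_subset] at hb
      obtain ⟨x, hx, -⟩ := hb
      rw [mem_inter, mem_roots, mem_roots] at hx
      exact hres l x hx.1.2 hx.2.2) y
    have c1 := hcm _ gf
    have c2 := hcm _ gg
    have p0 := VV_pos g0 0 y
    have p0N := VV_pos g0 0 N
    have p1 := VV_pos gf 0 y
    have p2 := VV_pos gg 0 y
    have q1 := VV_pos gf 0 N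
    have q2 := VV_pos gg 0 N
    have a0 : VV (roots f₀) 0 N ≤ VV (roots f₀) 0 y := VV_anti g0 hyN
    obtain ⟨G, hG⟩ : ∃ G, G = ∏ p ∈ (Ioc 0 y).filter Nat.Prime, gB (roots f₀) (roots f) (roots g) p := ⟨_, rfl⟩
    rw [← hG] at h2 h3
    have hG1 : 1 ≤ G := by
      rw [hG]
      calc (1 : ℝ) = ∏ _p ∈ (Ioc 0 y).filter Nat.Prime, (1 : ℝ) := by simp
        _ ≤ _ := prod_le_prod (fun _ _ => zero_le_one) fun p hp => one_le_gB (mem_filter.1 hp).2
    obtain ⟨L, hL⟩ : ∃ L, L = Real.log (Real.log N) := ⟨_, rfl⟩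
    rw [← hL] at h3 ⊢
    have hGd : G ^ d ≤ (C₃ * L) ^ d := pow_le_pow_left₀ (by linarith) h3 d
    have hL0 : 0 < L := by
      by_contra hcon
      push Not at hcon
      nlinarith
    have h4 : VV (Zt D (roots f₀) (roots f) (roots g)) 0 y ≤
        C₂ * C₁ ^ 2 * C₃ ^ d * (VV (roots (f₀ * f)) 0 N * VV (roots (f₀ * g)) 0 N / VV (roots f₀) 0 N * L ^ d) := by
      have k1 : VV (Zt D (roots f₀) (roots f) (roots g)) 0 y * VV (roots f₀) 0 N ≤
          C₂ * C₁ ^ 2 * C₃ ^ d * (VV (roots (f₀ * f)) 0 N * VV (roots (f₀ * g)) 0 N * L ^ d) := by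
        calc VV (Zt D (roots f₀) (roots f) (roots g)) 0 y * VV (roots f₀) 0 N
            ≤ VV (Zt D (roots f₀) (roots f) (roots g)) 0 y * VV (roots f₀) 0 y :=
              mul_le_mul_of_nonneg_left a0 (VV_pos hZ 0 y).le
          _ ≤ C₂ * (VV (roots (f₀ * f)) 0 y * VV (roots (f₀ * g)) 0 y * G ^ d) := h2
          _ ≤ C₂ * ((C₁ * VV (roots (f₀ * f)) 0 N) * (C₁ * VV (roots (f₀ * g)) 0 N) * (C₃ * L) ^ d) := by
              gcongr
          _ = _ := by rw [mul_pow]; ring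
      calc VV (Zt D (roots f₀) (roots f) (roots g)) 0 y =
          VV (Zt D (roots f₀) (roots f) (roots g)) 0 y * VV (roots f₀) 0 N / VV (roots f₀) 0 N := by
            field_simp
        _ ≤ C₂ * C₁ ^ 2 * C₃ ^ d * (VV (roots (f₀ * f)) 0 N * VV (roots (f₀ * g)) 0 N * L ^ d) / VV (roots f₀) 0 N :=
            div_le_div_of_nonneg_right k1 p0N.le
        _ = _ := by ring
    unfold order
    calc (P.card : ℝ) ≤ C * N * VV (Zt D (roots f₀) (roots f) (roots g)) 0 y := h1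
      _ ≤ C * N * (C₂ * C₁ ^ 2 * C₃ ^ d *
          (VV (roots (f₀ * f)) 0 N * VV (roots (f₀ * g)) 0 N / VV (roots f₀) 0 N * L ^ d)) :=
          mul_le_mul_of_nonneg_left h4 (by positivity)
      _ = (C * C₂ * C₁ ^ 2 * C₃ ^ d) * ((N * VV (roots (f₀ * f)) 0 N) * (N * VV (roots (f₀ * g)) 0 N) /
          (N * VV (roots f₀) 0 N) * L ^ d) := by
          field_simp
      _ ≤ _ := by
          apply mul_le_mul_of_nonneg_right _ (by positivity)
          have : 0 ≤ C * C₁ := by positivity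
          linarith

end Pool.Agent.H563.PL
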