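import Pool.Agent.H563.PL.Siv

/-!
# The lower bound for families of residue classes, uniformly in the family
-/

set_option autoImplicit false

namespace Pool.Agent.H563.PL

open Finset
open Pool.Agent.Y843.HS (Pr VV Sv VV_split Pr_mem)
open Pool.Agent.K4H8.DP

/-- a number in free classes modulo all the primes up to `s` -/
lemma free_num {D : ℕ} {Z : ℕ → Finset ℕ} (hZ : Good D Z) (s : ℕ) :
    ∃ b : ℕ, ∀ p : ℕ, p.Prime → p ≤ s → b % p ∉ Z p := by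
  classical
  have hex : ∀ p : ℕ, ∃ c : ℕ, p.Prime → c < p ∧ c ∉ Z p := by
    intro p
    by_cases hp : p.Prime
    · obtain ⟨-, h2, -⟩ := hZ p hp
      have : ¬ (range p ⊆ Z p) := by
        intro h
        have := card_le_card h
        rw [card_range] at this
        omega
      rw [Finset.not_subset] at this
      obtain ⟨c, hc1, hc2⟩ := this
      exact ⟨c, fun _ => ⟨mem_range.1 hc1, hc2⟩⟩
    · exact ⟨0, fun h => absurd h hp⟩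
  choose c hc using hex
  obtain ⟨b, hb⟩ := Nat.chineseRemainderOfFinset c (fun p => p) ((Ioc 0 s).filter Nat.Prime) (by
    intro p hp
    exact (mem_filter.1 hp).2.ne_zero) (by
    intro p hp q hq hpq
    rw [mem_coe, mem_filter] at hp hq
    exact (Nat.coprime_primes hp.2 hq.2).2 hpq)
  refine ⟨b, fun p hp hps => ?_⟩
  have h1 : b ≡ c p [MOD p] := hb p (mem_filter.2 ⟨mem_Ioc.2 ⟨hp.pos, hps⟩, hp⟩)
  have h2 : b % p = c p := by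
    have h3 : b % p = c p % p := h1
    rw [h3, Nat.mod_eq_of_lt (hc p hp).1]
  rw [h2]
  exact (hc p hp).2

open Classical in
/-- the `n` in `(A, A + N]` outside of all the classes modulo the primes up to `N ^ κ` -/
noncomputable def RZ (κ : ℝ) (Z : ℕ → Finset ℕ) (A N : ℕ) : Finset ℕ :=
  (Ioc A (A + N)).filter (fun n => ∀ p : ℕ, p.Prime → (p : ℝ) ≤ (N : ℝ) ^ κ → n % p ∉ Z p)

lemma mem_RZ {κ : ℝ} {Z : ℕ → Finset ℕ} {A N n : ℕ} : n ∈ RZ κ Z A N ↔ (A < n ∧ n ≤ A + N) ∧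
    ∀ p : ℕ, p.Prime → (p : ℝ) ≤ (N : ℝ) ^ κ → n % p ∉ Z p := by
  classical
  unfold RZ
  rw [mem_filter, mem_Ioc]

/-- the lower bound -/
lemma lowsD (D : ℕ) : ∃ κ : ℝ, 0 < κ ∧ κ ≤ 1 ∧ ∃ c : ℝ, 0 < c ∧ ∃ N₀ : ℕ, ∀ N : ℕ, N₀ ≤ N → ∀ Z : ℕ → Finset ℕ,
    Good D Z → ∀ A : ℕ, c * (N * VV Z 0 N) ≤ ((RZ κ Z A N).card : ℝ) := by
  classical
  obtain ⟨Cf, hCf, hflc⟩ := Pool.Agent.Y151.HS.flc
  obtain ⟨w, hw, hVa⟩ := logsD D
  obtain ⟨s, hs⟩ : ∃ s, s = Cf * (D + 1) := ⟨_, rfl⟩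
  have hs1 : 1 ≤ s := by
    rw [hs]
    nlinarith
  obtain ⟨Q, hQ⟩ : ∃ Q, Q = primorial s := ⟨_, rfl⟩
  have hQ0 : 0 < Q := by rw [hQ]; exact primorial_pos s
  have hQr : (0 : ℝ) < Q := by exact_mod_cast hQ0
  obtain ⟨κ, hκ⟩ : ∃ κ : ℝ, κ = 1 / (8 * (Cf * s : ℕ)) := ⟨_, rfl⟩
  have hCs : 1 ≤ Cf * s := by nlinarith
  have hCsr : (1 : ℝ) ≤ ((Cf * s : ℕ) : ℝ) := by exact_mod_cast hCs
  have hκ0 : 0 < κ := by rw [hκ]; positivity
  have hκ1 : κ ≤ 1 := by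
    rw [hκ, div_le_one (by positivity)]
    linarith
  have ev1 := (tendsto_rpow_atTop hκ0).eventually (Filter.eventually_ge_atTop ((2 : ℝ) ^ (2 ^ (s + 1))))
  have ev2 := (isLittleO_log_rpow_rpow_atTop ((2 * D : ℕ) : ℝ) (show (0 : ℝ) < 1 / 2 by norm_num)).bound
    (show (0 : ℝ) < w / (4 * Q) by positivity)
  obtain ⟨x₀, hx₀⟩ := Filter.eventually_atTop.1 ((ev1.and ev2).and (Filter.eventually_ge_atTop (3 : ℝ)))
  refine ⟨κ, hκ0, hκ1, 1 / (4 * Q), by positivity, ⌈x₀⌉₊, fun N hN Z hZ A => ?_⟩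
  obtain ⟨⟨h1, h2⟩, h3⟩ := hx₀ N ((Nat.le_ceil _).trans (by exact_mod_cast hN))
  have hN3 : 3 ≤ N := by exact_mod_cast h3
  have hNr : (0 : ℝ) < N := by linarith
  have hlN : 0 < Real.log N := Real.log_pos (by linarith)
  -- the level
  have hex : ∃ J : ℕ, (N : ℝ) ^ κ ≤ (2 : ℝ) ^ (2 ^ J) := by
    obtain ⟨J, hJ⟩ := pow_unbounded_of_one_lt ((N : ℝ) ^ κ) (show (1 : ℝ) < 2 by norm_num)
    refine ⟨J, hJ.le.trans ?_⟩
    exact pow_le_pow_right₀ (by norm_num) (Nat.lt_two_pow_self).le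
  obtain ⟨J, hJ1, hJ2⟩ : ∃ J : ℕ, (N : ℝ) ^ κ ≤ (2 : ℝ) ^ (2 ^ J) ∧ ∀ i < J, ¬ (N : ℝ) ^ κ ≤ (2 : ℝ) ^ (2 ^ i) :=
    ⟨Nat.find hex, Nat.find_spec hex, fun i hi => Nat.find_min hex hi⟩
  have hJs : s + 1 ≤ J := by
    by_contra hcon
    push Not at hcon
    have h4 : (2 : ℝ) ^ (2 ^ J) < 2 ^ (2 ^ (s + 1)) := by
      apply pow_lt_pow_right₀ (by norm_num)
      exact Nat.pow_lt_pow_right (by norm_num) hcon
    linarith
  have hJ3 : (2 : ℝ) ^ (2 ^ J) ≤ (N : ℝ) ^ (2 * κ) := by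
    have h4 := hJ2 (J - 1) (by omega)
    push Not at h4
    have h5 : (2 : ℝ) ^ (2 ^ J) = ((2 : ℝ) ^ (2 ^ (J - 1))) ^ 2 := by
      rw [← pow_mul, ← pow_succ, show J - 1 + 1 = J by omega]
    have h6 : (N : ℝ) ^ (2 * κ) = ((N : ℝ) ^ κ) ^ 2 := by
      rw [mul_comm, Real.rpow_mul hNr.le, Real.rpow_two]
    rw [h5, h6]
    exact pow_le_pow_left₀ (by positivity) h4.le 2
  obtain ⟨R, hR⟩ : ∃ R : ℕ, R = 2 ^ 2 ^ J := ⟨_, rfl⟩
  have hRr : ((R : ℕ) : ℝ) = (2 : ℝ) ^ (2 ^ J) := by rw [hR]; push_cast; rfl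
  have hsR : s ≤ R := by
    rw [hR]
    have h4 : s < 2 ^ s := Nat.lt_two_pow_self
    have h5 : 2 ^ s ≤ 2 ^ 2 ^ J := by
      apply Nat.pow_le_pow_right (by norm_num)
      have : J < 2 ^ J := Nat.lt_two_pow_self
      omega
    omega
  have hRN : R ≤ N := by
    have h4 : (R : ℝ) ≤ N := by
      rw [hRr]
      refine hJ3.trans ?_
      calc (N : ℝ) ^ (2 * κ) ≤ (N : ℝ) ^ (1 : ℝ) := by
            apply Real.rpow_le_rpow_of_exponent_le (by linarith)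
            rw [hκ, mul_one_div, div_le_one (by positivity)]
            linarith
        _ = N := Real.rpow_one _
    exact_mod_cast h4
  -- the class modulo `Q`
  obtain ⟨b₀, hb₀s⟩ := free_num hZ s
  have hfl := hflc D s s J (by rw [hs]) (by rw [hs]) Z (hZ.sv s _) Q b₀ A N hQ0 (by
    intro p hp hpD
    rw [Pr_mem] at hp
    rw [hQ, Nat.Prime.dvd_primorial_iff hp.2] at hpD
    omega)
  rw [← hR] at hfl
  obtain ⟨F, hF, hfl⟩ : ∃ F : Finset ℕ, (∀ x, x ∈ F ↔ (A < x ∧ x ≤ A + N) ∧ x % Q = b₀ % Q ∧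
      ∀ p ∈ Pr s R, x % p ∉ Z p) ∧
      |(F.card : ℝ) - (N : ℝ) / Q * ∏ p ∈ Pr s R, (1 - ((Z p).card : ℝ) / p)| ≤
      (1 / 2 : ℝ) ^ s * ((N : ℝ) / Q * ∏ p ∈ Pr s R, (1 - ((Z p).card : ℝ) / p)) + ((2 : ℝ) ^ 2 ^ J) ^ (Cf * s) :=
    ⟨_, fun x => (@Finset.mem_filter ℕ _ (_) _ x).trans (by rw [mem_Ioc]), hfl⟩
  have hsub : F ⊆ RZ κ Z A N := by
    intro n hn
    rw [hF] at hn
    refine mem_RZ.2 ⟨hn.1, ?_⟩
    intro l hl hlN
    have hlR : l ≤ R := by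
      have : (l : ℝ) ≤ R := by rw [hRr]; linarith
      exact_mod_cast this
    by_cases hls : l ≤ s
    · have hlD : l ∣ Q := by
        rw [hQ]
        exact (Nat.Prime.dvd_primorial_iff hl).2 hls
      have h4 : n ≡ b₀ [MOD l] := Nat.ModEq.of_dvd hlD hn.2.1
      have h5 : n % l = b₀ % l := h4
      rw [h5]
      exact hb₀s l hl hls
    · exact hn.2.2 l (Pr_mem.2 ⟨⟨by omega, hlR⟩, hl⟩)
  have hcard : (F.card : ℝ) ≤ (RZ κ Z A N).card := by exact_mod_cast card_le_card hsub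
  refine le_trans ?_ hcard
  obtain ⟨V, hV⟩ : ∃ V, V = VV Z s R := ⟨_, rfl⟩
  have hfl' : |(F.card : ℝ) - N / Q * V| ≤ (1 / 2 : ℝ) ^ s * (N / Q * V) + ((2 : ℝ) ^ 2 ^ J) ^ (Cf * s) := by
    rw [hV]
    exact hfl
  have hVpos : 0 < V := by rw [hV]; exact VV_pos hZ s R
  have hVa1 : VV Z 0 N ≤ V := by
    have h4 : VV Z 0 N ≤ VV Z 0 R := VV_anti hZ hRN
    have h5 : VV Z 0 s * V = VV Z 0 R := by rw [hV]; exact VV_split Z (Nat.zero_le s) hsR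
    have h6 := VV_le_one hZ 0 s
    have h7 := VV_pos hZ 0 s
    nlinarith
  have hhalf : (1 / 2 : ℝ) ^ s ≤ 1 / 2 := by
    calc (1 / 2 : ℝ) ^ s ≤ (1 / 2) ^ 1 := pow_le_pow_of_le_one (by norm_num) (by norm_num) hs1
      _ = 1 / 2 := pow_one _
  have herr : ((2 : ℝ) ^ 2 ^ J) ^ (Cf * s) ≤ N / (4 * Q) * VV Z 0 N := by
    have h4 : ((2 : ℝ) ^ 2 ^ J) ^ (Cf * s) ≤ (N : ℝ) ^ (1 / 4 : ℝ) := by
      calc ((2 : ℝ) ^ 2 ^ J) ^ (Cf * s) ≤ ((N : ℝ) ^ (2 * κ)) ^ (Cf * s) :=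
            pow_le_pow_left₀ (by positivity) hJ3 _
        _ = (N : ℝ) ^ (2 * κ * (Cf * s : ℕ)) := by
            rw [← Real.rpow_natCast, ← Real.rpow_mul hNr.le]
        _ = (N : ℝ) ^ (1 / 4 : ℝ) := by
            congr 1
            rw [hκ]
            field_simp
            norm_num
    have h5 : (N : ℝ) ^ (1 / 4 : ℝ) ≤ (N : ℝ) ^ (1 / 2 : ℝ) :=
      Real.rpow_le_rpow_of_exponent_le (by linarith) (by norm_num)
    rw [Real.norm_of_nonneg (by positivity), Real.norm_of_nonneg (by positivity), Real.rpow_natCast] at h2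
    have h7 := hVa Z hZ N (by omega)
    have h8 : (N : ℝ) ^ (1 / 2 : ℝ) * (N : ℝ) ^ (1 / 2 : ℝ) = N := by
      rw [← Real.rpow_add hNr]
      norm_num
    calc ((2 : ℝ) ^ 2 ^ J) ^ (Cf * s) ≤ (N : ℝ) ^ (1 / 2 : ℝ) := h4.trans h5
      _ ≤ (N : ℝ) / (4 * Q) * (w / Real.log N ^ (2 * D)) := by
          rw [div_mul_div_comm, le_div_iff₀ (by positivity)]
          have h9 : (N : ℝ) ^ (1 / 2 : ℝ) * (4 * Q * Real.log N ^ (2 * D)) ≤
              (N : ℝ) ^ (1 / 2 : ℝ) * (4 * Q * (w / (4 * Q) * (N : ℝ) ^ (1 / 2 : ℝ))) := by gcongr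
          refine h9.trans (le_of_eq ?_)
          have h10 : 4 * (Q : ℝ) * (w / (4 * Q) * (N : ℝ) ^ (1 / 2 : ℝ)) = w * (N : ℝ) ^ (1 / 2 : ℝ) := by
            field_simp
          rw [h10]
          calc (N : ℝ) ^ (1 / 2 : ℝ) * (w * (N : ℝ) ^ (1 / 2 : ℝ)) = w * ((N : ℝ) ^ (1 / 2 : ℝ) * (N : ℝ) ^ (1 / 2 : ℝ)) := by ring
            _ = N * w := by rw [h8]; ring
      _ ≤ _ := mul_le_mul_of_nonneg_left h7 (by positivity)
  have hNV : N / Q * VV Z 0 N ≤ N / Q * V := mul_le_mul_of_nonneg_left hVa1 (by positivity)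
  have hNV0 : 0 ≤ N / Q * V := by positivity
  have habs := (abs_le.1 hfl').1
  have h10 : (1 / 2 : ℝ) ^ s * (N / Q * V) ≤ 1 / 2 * (N / Q * V) := mul_le_mul_of_nonneg_right hhalf hNV0
  have h11 : (N : ℝ) / (4 * Q) * VV Z 0 N = 1 / 4 * (N / Q * VV Z 0 N) := by
    field_simp
  have h12 : 1 / (4 * (Q : ℝ)) * (N * VV Z 0 N) = 1 / 4 * (N / Q * VV Z 0 N) := by
    field_simp
  rw [h11] at herr
  rw [h12]
  linarith

end Pool.Agent.H563.PL
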