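import Pool.Agent.H563.PL.Shp

/-!
# The choice of numbers with few prime factors
-/

set_option autoImplicit false

namespace Pool.Agent.H563.PL

open Finset Polynomial
open Pool.Agent.Y843.HS (Pr VV Sv VV_split Pr_mem)
open Pool.Agent.Y843.AC (OK Av APs)
open Pool.Agent.K4H8.DP

/-- the number of the prime factors of the values -/
lemma values (d₀ d B : ℕ) (hB : 1 ≤ B) {κ : ℝ} (hκ : 0 < κ) : ∃ r : ℕ, ∀ N : ℕ, d₀ + d + 2 ≤ N → ∀ N₁ : ℕ, N₁ ≤ N ^ B →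
    ∀ f₀ f : ℤ[X], f₀.natDegree ≤ d₀ → (∀ i, |f₀.coeff i| ≤ N ^ B) → f.natDegree ≤ d → (∀ i, |f.coeff i| ≤ N ^ B) →
    ∀ n ∈ Ioc N₁ (N₁ + N), Rough ((N : ℝ) ^ κ) (f₀ * f) n →
      ((f₀ * f).eval (n : ℤ)).natAbs.primeFactorsList.length ≤ r := by
  obtain ⟨E, hE⟩ : ∃ E, E = ((B + 1) * (d₀ + 1) + 1) + ((B + 1) * (d + 1) + 1) := ⟨_, rfl⟩
  refine ⟨⌈(E : ℝ) / κ⌉₊, ?_⟩
  intro N hN N₁ hN₁ f₀ f hf₀ hc₀ hf hc n hn hr
  have hN2 : 2 ≤ N := by omega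
  have hH : 1 ≤ N ^ (B + 1) := Nat.one_le_pow _ _ (by omega)
  have hBB : N ^ B ≤ N ^ (B + 1) := Nat.pow_le_pow_right (by omega) (by omega)
  have hBBz : ((N : ℤ) ^ B) ≤ ((N ^ (B + 1) : ℕ) : ℤ) := by exact_mod_cast hBB
  rw [mem_Ioc] at hn
  have hnH : n ≤ N ^ (B + 1) := by
    have h1 : N ≤ N ^ B := Nat.le_self_pow (by omega) N
    have h2 : 2 * N ^ B ≤ N * N ^ B := Nat.mul_le_mul_right _ hN2
    rw [pow_succ]
    linarith [hn.2]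
  have h1 := eval_bd (D := d₀) hf₀ hH (fun i => (hc₀ i).trans hBBz) hnH
  have h2 := eval_bd (D := d) hf hH (fun i => (hc i).trans hBBz) hnH
  apply few hκ hN2 _ (by
    intro q hq hqn
    by_contra hcon
    push Not at hcon
    exact hr q hq hcon (Int.natCast_dvd.2 hqn))
  rw [eval_mul, Int.natAbs_mul, hE, pow_add]
  apply Nat.mul_le_mul
  · refine h1.trans ?_
    rw [← pow_mul, pow_succ, mul_comm (N ^ _) N]
    exact Nat.mul_le_mul_right _ (by omega)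
  · refine h2.trans ?_
    rw [← pow_mul, pow_succ, mul_comm (N ^ _) N]
    exact Nat.mul_le_mul_right _ (by omega)

/-- numbers with few prime factors -/
lemma mainP (d₀ d B : ℕ) (hB : 1 ≤ B) : ∃ κ : ℝ, 0 < κ ∧ κ ≤ 1 ∧ ∃ r : ℕ, ∃ c : ℝ, 0 < c ∧ ∃ N₀ : ℕ,
    ∀ N : ℕ, N₀ ≤ N → ∀ N₁ : ℕ, N₁ ≤ N ^ B → ∀ f₀ : ℤ[X], f₀.natDegree ≤ d₀ → (∀ i, |f₀.coeff i| ≤ N ^ B) →
    ∀ S : Finset ℤ[X], Adm f₀ d (N ^ B) S →
    ∀ t K : ℕ, 1 ≤ K → (∀ f ∈ S, (t : ℝ) ≤ c * order (f₀ * f) N) →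
    (t : ℝ) * S.card * Real.log (Real.log N) ^ d ≤ c * K * order f₀ N →
    ∃ n : ℤ[X] → ℕ → ℕ, (∀ f ∈ S, ∀ i < t, n f i ∈ Ioc N₁ (N₁ + N) ∧ Rough ((N : ℝ) ^ κ) (f₀ * f) (n f i) ∧
      ((f₀ * f).eval (n f i : ℤ)).natAbs.primeFactorsList.length ≤ r) ∧
      (∀ f ∈ S, ∀ i < t, ∀ j < t, n f i = n f j → i = j) ∧
      ∀ v, ((S ×ˢ range t).filter (fun y => n y.1 y.2 = v)).card ≤ K := by
  classical
  obtain ⟨κ, hκ, hκ1, c₁, hc₁, N₂, hlow⟩ := lowsD (d₀ + d)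
  obtain ⟨r, hr⟩ := values d₀ d B hB hκ
  obtain ⟨c, hc, N₃, hgen⟩ := genP d₀ d B κ hκ hκ1 c₁ hc₁
  refine ⟨κ, hκ, hκ1, r, c, hc, max (max N₂ N₃) (d₀ + d + 2), ?_⟩
  intro N hN N₁ hN₁ f₀ hf₀ hc₀ S hS t K hK ht hSt
  have hNN : N₂ ≤ N := (le_max_left _ _).trans ((le_max_left _ _).trans hN)
  have hNN3 : N₃ ≤ N := (le_max_right _ _).trans ((le_max_left _ _).trans hN)
  have hNd : d₀ + d + 2 ≤ N := (le_max_right _ _).trans hN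
  obtain ⟨n, hn1, hn2, hn3⟩ := hgen N hNN3 N₁ f₀ hf₀ S hS t K hK ht hSt (fun f => RZ κ (roots (f₀ * f)) N₁ N) (by
    intro f hf
    obtain ⟨a1, a2, a3, a4⟩ := hS.1 f hf
    have hdeg : (f₀ * f).natDegree ≤ d₀ + d := natDegree_mul_le.trans (by omega)
    refine ⟨?_, ?_, ?_⟩
    · intro n hn
      rw [mem_RZ] at hn
      rw [mem_Ioc]
      exact hn.1
    · intro n hn l hl hlN
      rw [mem_RZ] at hn
      rw [← mod_mem_roots hl.pos]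
      exact hn.2 l hl hlN
    · exact hlow N hNN (roots (f₀ * f)) (good_of a4 hdeg) N₁)
  refine ⟨n, ?_, hn2, hn3⟩
  intro f hf i hi
  have h1 := hn1 f hf i hi
  rw [mem_RZ] at h1
  obtain ⟨a1, a2, a3, a4⟩ := hS.1 f hf
  have h2 : n f i ∈ Ioc N₁ (N₁ + N) := by
    rw [mem_Ioc]
    exact h1.1
  have h3 : Rough ((N : ℝ) ^ κ) (f₀ * f) (n f i) := by
    intro l hl hlN
    rw [← mod_mem_roots hl.pos]
    exact h1.2 l hl hlN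
  refine ⟨h2, h3, ?_⟩
  apply hr N hNd N₁ hN₁ f₀ f hf₀ hc₀ a2 _ (n f i) h2 h3
  intro k
  have := a3 k
  push_cast at this
  exact this

end Pool.Agent.H563.PL
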