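import Pool.Agent.H563.PL.Low

/-!
# Two families of residue classes next to a third one
-/

set_option autoImplicit false

namespace Pool.Agent.H563.PL

open Finset
open Pool.Agent.Y843.HS (Pr VV Sv VV_split Pr_mem)
open Pool.Agent.K4H8.DP

/-- the classes for two members, for the primes larger than `8 D` -/
def Zt (D : ℕ) (Z₀ Z₁ Z₂ : ℕ → Finset ℕ) (l : ℕ) : Finset ℕ := if l ≤ 8 * D then ∅ else Z₀ l ∪ Z₁ l ∪ Z₂ l

lemma Zt_good {D : ℕ} {Z₀ Z₁ Z₂ : ℕ → Finset ℕ} (h1 : Good D (fun l => Z₀ l ∪ Z₁ l))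
    (h2 : Good D (fun l => Z₀ l ∪ Z₂ l)) : Good (2 * D) (Zt D Z₀ Z₁ Z₂) := by
  intro p hp
  unfold Zt
  split_ifs with h
  · exact ⟨by simp, by rw [card_empty]; exact hp.pos, by simp⟩
  · obtain ⟨a1, a2, a3⟩ := h1 p hp
    obtain ⟨b1, b2, b3⟩ := h2 p hp
    simp only at a1 b1
    have e : Z₀ p ∪ Z₁ p ∪ Z₂ p ⊆ (Z₀ p ∪ Z₁ p) ∪ (Z₀ p ∪ Z₂ p) := by
      intro x hx
      simp only [mem_union] at hx ⊢
      tauto
    have h3 := (card_le_card e).trans (card_union_le _ _)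
    refine ⟨by omega, by omega, ?_⟩
    intro c hc
    have hc' := e hc
    rw [mem_union] at hc'
    rcases hc' with hc' | hc'
    · exact a3 c hc'
    · exact b3 c hc'

/-- the local inequality for real numbers -/
lemma real_loc {u v a i E D d l : ℝ} (hl : 8 * D < l) (hD : 0 ≤ D) (hd : 0 ≤ d) (_hdD : d ≤ D)
    (hE : E = 8 * D * d) (ha : 0 ≤ a) (hau : a ≤ u) (hav : a ≤ v) (hu : u ≤ D / l) (hv : v ≤ D / l)
    (hi0 : 0 ≤ i) (hi : i ≤ d / l) :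
    (1 - u - v + (a + i)) * (1 - a) ≤ (1 - u) * (1 - v) * ((1 + E / l ^ 2) * (1 + d / l)) := by
  have hl0 : 0 < l := by linarith
  obtain ⟨x, hx⟩ : ∃ x, x = 1 / l := ⟨_, rfl⟩
  have hx0 : 0 < x := by rw [hx]; positivity
  have eu : D / l = D * x := by rw [hx, mul_one_div]
  have ed : d / l = d * x := by rw [hx, mul_one_div]
  have eE : E / l ^ 2 = 8 * D * d * x ^ 2 := by rw [hx, hE]; field_simp
  rw [eu] at hu hv
  rw [ed] at hi
  rw [eE, ed]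
  have hDx : 8 * D * x ≤ 1 := by
    rw [hx, mul_one_div, div_le_one hl0]
    exact hl.le
  have hDx0 : 0 ≤ D * x := by positivity
  have hdx0 : 0 ≤ d * x := by positivity
  have h1 : (1 - u - v + (a + i)) * (1 - a) = (1 - u) * (1 - v) - (u - a) * (v - a) + i * (1 - a) := by ring
  have h2 : (1 - u - v + (a + i)) * (1 - a) ≤ (1 - u) * (1 - v) + d * x := by
    rw [h1]
    have g1 : 0 ≤ (u - a) * (v - a) := mul_nonneg (by linarith) (by linarith)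
    have g2 : i * (1 - a) ≤ i := by nlinarith
    linarith
  obtain ⟨P, hP⟩ : ∃ P, P = (1 - u) * (1 - v) := ⟨_, rfl⟩
  rw [← hP] at h2 ⊢
  have hu0 : 0 ≤ u := ha.trans hau
  have hv0 : 0 ≤ v := ha.trans hav
  have hPlow : 1 - 2 * (D * x) ≤ P := by
    rw [hP]
    nlinarith
  refine h2.trans ?_
  have e3 : P * ((1 + 8 * D * d * x ^ 2) * (1 + d * x)) =
      P + P * (d * x) + P * (8 * (D * x) * (d * x)) + P * (8 * (D * x) * (d * x)) * (d * x) := by ring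
  rw [e3]
  have hP0 : 0 ≤ P := by linarith
  have g3 : 0 ≤ P * (8 * (D * x) * (d * x)) * (d * x) := by positivity
  have g4 : (1 - 2 * (D * x)) * (d * x) ≤ P * (d * x) := mul_le_mul_of_nonneg_right hPlow hdx0
  have g5 : (1 - 2 * (D * x)) * (8 * (D * x) * (d * x)) ≤ P * (8 * (D * x) * (d * x)) :=
    mul_le_mul_of_nonneg_right hPlow (by positivity)
  have g6 : d * x ≤ (1 - 2 * (D * x)) * (d * x) + (1 - 2 * (D * x)) * (8 * (D * x) * (d * x)) := by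
    have : (1 - 2 * (D * x)) * (d * x) + (1 - 2 * (D * x)) * (8 * (D * x) * (d * x)) - d * x =
        (D * x) * (d * x) * (6 - 16 * (D * x)) := by ring
    have h6 : 0 ≤ (D * x) * (d * x) * (6 - 16 * (D * x)) := by
      apply mul_nonneg (by positivity)
      linarith
    linarith
  linarith

/-- a prime is bad if there is a common class outside of the third family -/
def Bad (Z₀ Z₁ Z₂ : ℕ → Finset ℕ) (l : ℕ) : Prop := ¬ (Z₁ l ∩ Z₂ l ⊆ Z₀ l)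

/-- the constant factors -/
noncomputable def cD (D d l : ℕ) : ℝ := if l ≤ 8 * D then ((D : ℝ) + 1) ^ 2 else 1 + 8 * D * d / (l : ℝ) ^ 2

open Classical in
/-- the factor of the bad primes -/
noncomputable def gB (Z₀ Z₁ Z₂ : ℕ → Finset ℕ) (l : ℕ) : ℝ := if Bad Z₀ Z₁ Z₂ l then (1 - 1 / (l : ℝ))⁻¹ else 1

lemma one_le_gB {Z₀ Z₁ Z₂ : ℕ → Finset ℕ} {l : ℕ} (hl : l.Prime) : 1 ≤ gB Z₀ Z₁ Z₂ l := by
  classical
  unfold gB
  split_ifs
  · exact one_le_fac hl.two_le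
  · exact le_rfl

lemma one_le_cD (D d l : ℕ) : 1 ≤ cD D d l := by
  unfold cD
  split_ifs
  · have : (0 : ℝ) ≤ D := Nat.cast_nonneg D
    nlinarith
  · have : (0 : ℝ) ≤ 8 * D * d / (l : ℝ) ^ 2 := by positivity
    linarith

lemma loc_pair {D d : ℕ} (hdD : d ≤ D) {Z₀ Z₁ Z₂ : ℕ → Finset ℕ} (h1 : Good D (fun l => Z₀ l ∪ Z₁ l))
    (h2 : Good D (fun l => Z₀ l ∪ Z₂ l)) (h3 : ∀ l : ℕ, l.Prime → (Z₁ l).card ≤ d) {l : ℕ} (hl : l.Prime) :
    (1 - ((Zt D Z₀ Z₁ Z₂ l).card : ℝ) / l) * (1 - ((Z₀ l).card : ℝ) / l) ≤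
      (1 - ((Z₀ l ∪ Z₁ l).card : ℝ) / l) * (1 - ((Z₀ l ∪ Z₂ l).card : ℝ) / l) * cD D d l * gB Z₀ Z₁ Z₂ l ^ d := by
  classical
  have hl0 : (0 : ℝ) < l := by exact_mod_cast hl.pos
  have f1 := fac_low h1 hl
  have f2 := fac_low h2 hl
  have hD : (0 : ℝ) ≤ D := Nat.cast_nonneg D
  have hD1 : 0 < 1 / ((D : ℝ) + 1) := by positivity
  have hg : 1 ≤ gB Z₀ Z₁ Z₂ l ^ d := one_le_pow₀ (one_le_gB hl)
  have hc := one_le_cD D d l
  by_cases h8 : l ≤ 8 * D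
  · have e : Zt D Z₀ Z₁ Z₂ l = ∅ := by unfold Zt; rw [if_pos h8]
    have ec : cD D d l = ((D : ℝ) + 1) ^ 2 := by unfold cD; rw [if_pos h8]
    rw [e, card_empty, Nat.cast_zero, zero_div, sub_zero, one_mul, ec]
    have g0 : 1 - ((Z₀ l).card : ℝ) / l ≤ 1 := fac_le_one Z₀ l
    have g1 : (1 / ((D : ℝ) + 1)) * (1 / ((D : ℝ) + 1)) ≤
        (1 - ((Z₀ l ∪ Z₁ l).card : ℝ) / l) * (1 - ((Z₀ l ∪ Z₂ l).card : ℝ) / l) :=
      mul_le_mul f1 f2 hD1.le (by linarith)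
    have g2 : 1 ≤ (1 - ((Z₀ l ∪ Z₁ l).card : ℝ) / l) * (1 - ((Z₀ l ∪ Z₂ l).card : ℝ) / l) * ((D : ℝ) + 1) ^ 2 := by
      have : (1 / ((D : ℝ) + 1)) * (1 / ((D : ℝ) + 1)) * ((D : ℝ) + 1) ^ 2 = 1 := by field_simp
      calc (1 : ℝ) = (1 / ((D : ℝ) + 1)) * (1 / ((D : ℝ) + 1)) * ((D : ℝ) + 1) ^ 2 := this.symm
        _ ≤ _ := mul_le_mul_of_nonneg_right g1 (by positivity)
    nlinarith
  · have ez : Zt D Z₀ Z₁ Z₂ l = Z₀ l ∪ Z₁ l ∪ Z₂ l := by unfold Zt; rw [if_neg h8]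
    have ec : cD D d l = 1 + 8 * D * d / (l : ℝ) ^ 2 := by unfold cD; rw [if_neg h8]
    rw [ez, ec]
    have hl8 : 8 * (D : ℝ) < l := by exact_mod_cast (by omega : 8 * D < l)
    -- the cardinalities
    have eu : (Z₀ l ∪ Z₁ l) ∪ (Z₀ l ∪ Z₂ l) = Z₀ l ∪ Z₁ l ∪ Z₂ l := by
      ext x; simp only [mem_union]; tauto
    have ei : (Z₀ l ∪ Z₁ l) ∩ (Z₀ l ∪ Z₂ l) = Z₀ l ∪ (Z₁ l ∩ Z₂ l) := by
      ext x; simp only [mem_union, mem_inter]; tauto
    have hk := card_union_add_card_inter (Z₀ l ∪ Z₁ l) (Z₀ l ∪ Z₂ l)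
    rw [eu, ei] at hk
    have hsub0 : (Z₀ l).card ≤ (Z₀ l ∪ (Z₁ l ∩ Z₂ l)).card := card_le_card subset_union_left
    have hsub1 : (Z₀ l ∪ (Z₁ l ∩ Z₂ l)).card ≤ (Z₀ l).card + d := by
      refine (card_union_le _ _).trans ?_
      have := (card_le_card (inter_subset_left (s₁ := Z₁ l) (s₂ := Z₂ l))).trans (h3 l hl)
      omega
    have hsa1 : (Z₀ l).card ≤ (Z₀ l ∪ Z₁ l).card := card_le_card subset_union_left
    have hsa2 : (Z₀ l).card ≤ (Z₀ l ∪ Z₂ l).card := card_le_card subset_union_left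
    obtain ⟨i, hi⟩ : ∃ i : ℕ, (Z₀ l ∪ (Z₁ l ∩ Z₂ l)).card = (Z₀ l).card + i := ⟨_, (Nat.add_sub_cancel' hsub0).symm⟩
    have hid : i ≤ d := by omega
    have hbad : ¬ Bad Z₀ Z₁ Z₂ l → i = 0 := by
      intro hb
      unfold Bad at hb
      push Not at hb
      rw [union_eq_left.2 hb] at hi
      omega
    have hkr : ((Z₀ l ∪ Z₁ l ∪ Z₂ l).card : ℝ) = (Z₀ l ∪ Z₁ l).card + (Z₀ l ∪ Z₂ l).card - ((Z₀ l).card + i) := by
      have : ((Z₀ l ∪ Z₁ l ∪ Z₂ l).card : ℝ) + ((Z₀ l).card + i) = (Z₀ l ∪ Z₁ l).card + (Z₀ l ∪ Z₂ l).card := by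
        rw [hi] at hk
        exact_mod_cast hk
      linarith
    have key := real_loc (u := ((Z₀ l ∪ Z₁ l).card : ℝ) / l) (v := ((Z₀ l ∪ Z₂ l).card : ℝ) / l)
      (a := ((Z₀ l).card : ℝ) / l) (i := (i : ℝ) / l) (E := 8 * D * d) (D := D) (d := d) (l := l) hl8 hD
      (Nat.cast_nonneg d) (by exact_mod_cast hdD) rfl (by positivity)
      (div_le_div_of_nonneg_right (by exact_mod_cast hsa1) hl0.le)
      (div_le_div_of_nonneg_right (by exact_mod_cast hsa2) hl0.le)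
      (div_le_div_of_nonneg_right (by exact_mod_cast (h1 l hl).1) hl0.le)
      (div_le_div_of_nonneg_right (by exact_mod_cast (h2 l hl).1) hl0.le) (by positivity)
      (div_le_div_of_nonneg_right (by exact_mod_cast hid) hl0.le)
    have elhs : 1 - ((Z₀ l ∪ Z₁ l ∪ Z₂ l).card : ℝ) / l = 1 - ((Z₀ l ∪ Z₁ l).card : ℝ) / l -
        ((Z₀ l ∪ Z₂ l).card : ℝ) / l + (((Z₀ l).card : ℝ) / l + (i : ℝ) / l) := by
      rw [hkr]
      ring
    obtain ⟨P, hP⟩ : ∃ P, P = (1 - ((Z₀ l ∪ Z₁ l).card : ℝ) / l) * (1 - ((Z₀ l ∪ Z₂ l).card : ℝ) / l) := ⟨_, rfl⟩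
    have hP0 : 0 < P := by
      rw [hP]
      exact mul_pos (by linarith) (by linarith)
    by_cases hb : Bad Z₀ Z₁ Z₂ l
    · have eg : gB Z₀ Z₁ Z₂ l = (1 - 1 / (l : ℝ))⁻¹ := by unfold gB; rw [if_pos hb]
      rw [elhs]
      refine key.trans ?_
      rw [← hP]
      rw [mul_assoc P (1 + 8 * (D : ℝ) * d / (l : ℝ) ^ 2) (gB Z₀ Z₁ Z₂ l ^ d)]
      apply mul_le_mul_of_nonneg_left _ hP0.le
      apply mul_le_mul_of_nonneg_left _ (by positivity)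
      rw [eg]
      have hx : 1 + 1 / (l : ℝ) ≤ (1 - 1 / (l : ℝ))⁻¹ := by
        have h2 : (2 : ℝ) ≤ l := by exact_mod_cast hl.two_le
        have h3 : 0 < 1 - 1 / (l : ℝ) := by
          have : 1 / (l : ℝ) ≤ 1 / 2 := one_div_le_one_div_of_le (by norm_num) h2
          linarith
        rw [← one_div, le_div_iff₀ h3]
        have : (1 + 1 / (l : ℝ)) * (1 - 1 / (l : ℝ)) = 1 - (1 / (l : ℝ)) ^ 2 := by ring
        rw [this]
        have : 0 ≤ (1 / (l : ℝ)) ^ 2 := by positivity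
        linarith
      calc 1 + (d : ℝ) / l = 1 + (d : ℝ) * (1 / l) := by ring
        _ ≤ (1 + 1 / (l : ℝ)) ^ d := one_add_mul_le_pow (by
            have : 0 ≤ 1 / (l : ℝ) := by positivity
            linarith) d
        _ ≤ _ := pow_le_pow_left₀ (by positivity) hx d
    · have hi0 := hbad hb
      have eg : gB Z₀ Z₁ Z₂ l = 1 := by unfold gB; rw [if_neg hb]
      rw [eg, one_pow, mul_one, elhs, hi0, ← hP]
      have e5 : (1 - ((Z₀ l ∪ Z₁ l).card : ℝ) / l - ((Z₀ l ∪ Z₂ l).card : ℝ) / l +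
          (((Z₀ l).card : ℝ) / l + ((0 : ℕ) : ℝ) / l)) * (1 - ((Z₀ l).card : ℝ) / l) = P -
          (((Z₀ l ∪ Z₁ l).card : ℝ) / l - (Z₀ l).card / l) * (((Z₀ l ∪ Z₂ l).card : ℝ) / l - (Z₀ l).card / l) := by
        rw [hP]
        push_cast
        ring
      rw [e5]
      have g7 : 0 ≤ (((Z₀ l ∪ Z₁ l).card : ℝ) / l - (Z₀ l).card / l) * (((Z₀ l ∪ Z₂ l).card : ℝ) / l - (Z₀ l).card / l) := by
        apply mul_nonneg
        · have := div_le_div_of_nonneg_right (show ((Z₀ l).card : ℝ) ≤ (Z₀ l ∪ Z₁ l).card by exact_mod_cast hsa1) hl0.le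
          linarith
        · have := div_le_div_of_nonneg_right (show ((Z₀ l).card : ℝ) ≤ (Z₀ l ∪ Z₂ l).card by exact_mod_cast hsa2) hl0.le
          linarith
      have g8 : P ≤ P * (1 + 8 * D * d / (l : ℝ) ^ 2) := by
        have : 0 ≤ 8 * D * d / (l : ℝ) ^ 2 := by positivity
        nlinarith
      linarith

/-- the product of the constant factors -/
lemma cD_prod (D d : ℕ) : ∃ C : ℝ, 0 < C ∧ ∀ y : ℕ, ∏ p ∈ (Ioc 0 y).filter Nat.Prime, cD D d p ≤ C := by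
  classical
  refine ⟨((D : ℝ) + 1) ^ (16 * D) * Real.exp (8 * D * d), by positivity, fun y => ?_⟩
  have hD : (0 : ℝ) ≤ D := Nat.cast_nonneg D
  have h1 : ∏ p ∈ (Ioc 0 y).filter Nat.Prime, cD D d p ≤ ∏ p ∈ (Ioc 0 y).filter Nat.Prime,
      ((if p ≤ 8 * D then ((D : ℝ) + 1) ^ 2 else 1) * Real.exp (8 * D * d * ((p : ℝ) ^ 2)⁻¹)) := by
    apply prod_le_prod
    · intro p _
      linarith [one_le_cD D d p]
    · intro p _
      have he : 1 ≤ Real.exp (8 * D * d * ((p : ℝ) ^ 2)⁻¹) := by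
        rw [← Real.exp_zero]
        apply Real.exp_le_exp.2
        positivity
      unfold cD
      split_ifs with h
      · have : 0 ≤ ((D : ℝ) + 1) ^ 2 := by positivity
        nlinarith
      · rw [one_mul]
        have := Real.add_one_le_exp (8 * D * d * ((p : ℝ) ^ 2)⁻¹)
        calc 1 + 8 * D * d / (p : ℝ) ^ 2 = 8 * D * d * ((p : ℝ) ^ 2)⁻¹ + 1 := by rw [div_eq_mul_inv]; ring
          _ ≤ _ := this
  refine h1.trans ?_
  rw [prod_mul_distrib, ← prod_filter, prod_const, ← Real.exp_sum, ← mul_sum]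
  apply mul_le_mul
  · rw [← pow_mul]
    apply pow_le_pow_right₀ (by linarith)
    have : (((Ioc 0 y).filter Nat.Prime).filter (fun p => p ≤ 8 * D)).card ≤ (Ioc 0 (8 * D)).card := by
      apply card_le_card
      intro p hp
      rw [mem_filter, mem_filter, mem_Ioc] at hp
      rw [mem_Ioc]
      exact ⟨hp.1.1.1, hp.2⟩
    rw [Nat.card_Ioc, Nat.sub_zero] at this
    omega
  · apply Real.exp_le_exp.2
    have h2 : ∑ p ∈ (Ioc 0 y).filter Nat.Prime, ((p : ℝ) ^ 2)⁻¹ ≤ 1 := by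
      rcases Nat.lt_or_ge y 1 with hy | hy
      · have : y = 0 := by omega
        subst this
        simp
      · calc ∑ p ∈ (Ioc 0 y).filter Nat.Prime, ((p : ℝ) ^ 2)⁻¹ ≤ ∑ p ∈ Ioc 1 y, ((p : ℝ) ^ 2)⁻¹ := by
              apply sum_le_sum_of_subset_of_nonneg
              · intro p hp
                rw [mem_filter, mem_Ioc] at hp
                rw [mem_Ioc]
                exact ⟨hp.2.one_lt, hp.1.2⟩
              · intro p _ _
                positivity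
          _ ≤ ((1 : ℕ) : ℝ)⁻¹ - (y : ℝ)⁻¹ := sum_Ioc_inv_sq_le_sub one_ne_zero hy
          _ ≤ 1 := by
              have : (0 : ℝ) ≤ (y : ℝ)⁻¹ := by positivity
              push_cast
              linarith
    have h3 : (0 : ℝ) ≤ 8 * D * d := by positivity
    nlinarith
  · positivity
  · positivity

/-- the sieve product for two members -/
lemma VV_pair (D d : ℕ) (hdD : d ≤ D) : ∃ C : ℝ, 0 < C ∧ ∀ Z₀ Z₁ Z₂ : ℕ → Finset ℕ, Good D (fun l => Z₀ l ∪ Z₁ l) →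
    Good D (fun l => Z₀ l ∪ Z₂ l) → (∀ l : ℕ, l.Prime → (Z₁ l).card ≤ d) → ∀ y : ℕ,
    VV (Zt D Z₀ Z₁ Z₂) 0 y * VV Z₀ 0 y ≤ C * (VV (fun l => Z₀ l ∪ Z₁ l) 0 y * VV (fun l => Z₀ l ∪ Z₂ l) 0 y *
      (∏ p ∈ (Ioc 0 y).filter Nat.Prime, gB Z₀ Z₁ Z₂ p) ^ d) := by
  classical
  obtain ⟨C, hC, h⟩ := cD_prod D d
  refine ⟨C, hC, fun Z₀ Z₁ Z₂ h1 h2 h3 y => ?_⟩
  unfold VV
  rw [Pr_eq, ← prod_mul_distrib]
  have hg0 : Good (2 * D) (Zt D Z₀ Z₁ Z₂) := Zt_good h1 h2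
  have g1 : ∏ p ∈ (Ioc 0 y).filter Nat.Prime, ((1 - ((Zt D Z₀ Z₁ Z₂ p).card : ℝ) / p) * (1 - ((Z₀ p).card : ℝ) / p)) ≤
      ∏ p ∈ (Ioc 0 y).filter Nat.Prime, ((1 - ((Z₀ p ∪ Z₁ p).card : ℝ) / p) * (1 - ((Z₀ p ∪ Z₂ p).card : ℝ) / p) *
        cD D d p * gB Z₀ Z₁ Z₂ p ^ d) := by
    apply prod_le_prod
    · intro p hp
      have hpp := (mem_filter.1 hp).2
      apply mul_nonneg (fac_pos hg0 hpp).le
      have k1 := fac_pos h1 hpp
      have hp0 : (0 : ℝ) < p := by exact_mod_cast hpp.pos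
      have k2 : ((Z₀ p).card : ℝ) / p ≤ ((Z₀ p ∪ Z₁ p).card : ℝ) / p :=
        div_le_div_of_nonneg_right (by exact_mod_cast card_le_card subset_union_left) hp0.le
      linarith
    · intro p hp
      exact loc_pair hdD h1 h2 h3 (mem_filter.1 hp).2
  refine g1.trans ?_
  rw [prod_mul_distrib, prod_mul_distrib, prod_mul_distrib, prod_pow]
  have k1 : 0 ≤ ∏ p ∈ (Ioc 0 y).filter Nat.Prime, (1 - ((Z₀ p ∪ Z₁ p).card : ℝ) / p) :=
    prod_nonneg fun p hp => (fac_pos h1 (mem_filter.1 hp).2).le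
  have k2 : 0 ≤ ∏ p ∈ (Ioc 0 y).filter Nat.Prime, (1 - ((Z₀ p ∪ Z₂ p).card : ℝ) / p) :=
    prod_nonneg fun p hp => (fac_pos h2 (mem_filter.1 hp).2).le
  have k3 : 0 ≤ (∏ p ∈ (Ioc 0 y).filter Nat.Prime, gB Z₀ Z₁ Z₂ p) ^ d :=
    pow_nonneg (prod_nonneg fun p hp => by linarith [one_le_gB (Z₀ := Z₀) (Z₁ := Z₁) (Z₂ := Z₂) (mem_filter.1 hp).2]) d
  have k4 := h y
  obtain ⟨P, hP⟩ : ∃ P, P = (∏ p ∈ (Ioc 0 y).filter Nat.Prime, (1 - ((Z₀ p ∪ Z₁ p).card : ℝ) / p)) *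
    (∏ p ∈ (Ioc 0 y).filter Nat.Prime, (1 - ((Z₀ p ∪ Z₂ p).card : ℝ) / p)) := ⟨_, rfl⟩
  rw [← hP]
  have hP0 : 0 ≤ P := by rw [hP]; exact mul_nonneg k1 k2
  calc P * (∏ p ∈ (Ioc 0 y).filter Nat.Prime, cD D d p) * (∏ p ∈ (Ioc 0 y).filter Nat.Prime, gB Z₀ Z₁ Z₂ p) ^ d
      ≤ P * C * (∏ p ∈ (Ioc 0 y).filter Nat.Prime, gB Z₀ Z₁ Z₂ p) ^ d :=
        mul_le_mul_of_nonneg_right (mul_le_mul_of_nonneg_left k4 hP0) k3
    _ = _ := by ring

/-- the product over the bad primes, if they divide a number of polynomial size -/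
lemma bad_prod (E : ℕ) : ∃ C : ℝ, 0 < C ∧ ∃ N₀ : ℕ, ∀ N : ℕ, N₀ ≤ N → ∀ Z₀ Z₁ Z₂ : ℕ → Finset ℕ, ∀ R : ℕ, 0 < R →
    R ≤ N ^ E → (∀ l : ℕ, l.Prime → Bad Z₀ Z₁ Z₂ l → l ∣ R) → ∀ y : ℕ,
    ∏ p ∈ (Ioc 0 y).filter Nat.Prime, gB Z₀ Z₁ Z₂ p ≤ C * Real.log (Real.log N) := by
  classical
  obtain ⟨a₀, b₀, ha₀, hb₀, hM⟩ := Pool.Agent.Results.MP_7b7e48_nt.DeletedPrimes.mert_ex
  have ev := Real.tendsto_log_atTop.eventually (Filter.eventually_ge_atTop (3 : ℝ))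
  obtain ⟨x₀, hx₀⟩ := Filter.eventually_atTop.1 ev
  refine ⟨2 * b₀ * Real.exp (4 * E), by positivity, ⌈x₀⌉₊, fun N hN Z₀ Z₁ Z₂ R hR hRN hbad y => ?_⟩
  have hlog3 := hx₀ N ((Nat.le_ceil _).trans (by exact_mod_cast hN))
  obtain ⟨Y, hY⟩ : ∃ Y : ℕ, Y = ⌈Real.log N⌉₊ := ⟨_, rfl⟩
  have hY1 : Real.log N ≤ Y := by rw [hY]; exact Nat.le_ceil _
  have hY2 : (Y : ℝ) ≤ Real.log N + 1 := by rw [hY]; exact (Nat.ceil_lt_add_one (by linarith)).le
  have hY3 : (3 : ℝ) ≤ Y := by linarith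
  have hYn : 2 ≤ Y := by
    have : (2 : ℝ) ≤ Y := by linarith
    exact_mod_cast this
  have hN0 : 0 < N := by
    rcases Nat.eq_zero_or_pos N with h | h
    · rw [h] at hlog3
      simp at hlog3
      norm_num at hlog3
    · exact h
  -- splitting
  obtain ⟨T, hT⟩ : ∃ T, T = ((Ioc 0 y).filter Nat.Prime).filter (fun p => Bad Z₀ Z₁ Z₂ p) := ⟨_, rfl⟩
  have e1 : ∏ p ∈ (Ioc 0 y).filter Nat.Prime, gB Z₀ Z₁ Z₂ p = ∏ p ∈ T, (1 - 1 / (p : ℝ))⁻¹ := by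
    rw [hT, prod_filter (fun p => Bad Z₀ Z₁ Z₂ p)]
    rfl
  rw [e1, ← prod_filter_mul_prod_filter_not T (fun p => p ≤ Y)]
  have hTp : ∀ p ∈ T, p.Prime := by
    intro p hp
    rw [hT, mem_filter, mem_filter] at hp
    exact hp.1.2
  have hTb : ∀ p ∈ T, Bad Z₀ Z₁ Z₂ p := by
    intro p hp
    rw [hT, mem_filter] at hp
    exact hp.2
  have s1 : ∏ p ∈ T.filter (fun p => p ≤ Y), (1 - 1 / (p : ℝ))⁻¹ ≤ W1 Y := by
    unfold W1
    apply prod_mono_one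
    · intro p hp
      rw [mem_filter] at hp
      rw [mem_filter, mem_Ioc]
      exact ⟨⟨(hTp p hp.1).pos, hp.2⟩, hTp p hp.1⟩
    · intro p hp
      exact one_le_fac (mem_filter.1 hp).2.two_le
  obtain ⟨T', hT'⟩ : ∃ T', T' = T.filter (fun p => ¬ p ≤ Y) := ⟨_, rfl⟩
  rw [← hT']
  have hT'p : ∀ p ∈ T', p.Prime ∧ Y < p ∧ p ∣ R := by
    intro p hp
    rw [hT', mem_filter] at hp
    exact ⟨hTp p hp.1, by omega, hbad p (hTp p hp.1) (hTb p hp.1)⟩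
  have hcard : (T'.card : ℝ) ≤ 2 * E * Y := by
    have h1 : ∏ p ∈ T', p ∣ R := Finset.prod_primes_dvd R (fun p hp => (hT'p p hp).1.prime) (fun p hp => (hT'p p hp).2.2)
    have h2 : 2 ^ T'.card ≤ ∏ p ∈ T', p := by
      rw [← prod_const]
      exact prod_le_prod' fun p hp => (hT'p p hp).1.two_le
    have h3 : 2 ^ T'.card ≤ N ^ E := h2.trans ((Nat.le_of_dvd hR h1).trans hRN)
    have h4 : ((2 ^ T'.card : ℕ) : ℝ) ≤ ((N ^ E : ℕ) : ℝ) := by exact_mod_cast h3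
    have h5 := Real.log_le_log (by positivity) h4
    push_cast at h5
    rw [Real.log_pow, Real.log_pow] at h5
    have h6 : (1 : ℝ) / 2 ≤ Real.log 2 := by linarith [Real.log_two_gt_d9]
    have h7 : (T'.card : ℝ) * (1 / 2) ≤ T'.card * Real.log 2 := mul_le_mul_of_nonneg_left h6 (Nat.cast_nonneg _)
    have h8 : (E : ℝ) * Real.log N ≤ E * Y := mul_le_mul_of_nonneg_left hY1 (Nat.cast_nonneg _)
    linarith
  have s2 : ∏ p ∈ T', (1 - 1 / (p : ℝ))⁻¹ ≤ Real.exp (4 * E) := by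
    have h1 : ∏ p ∈ T', (1 - 1 / (p : ℝ))⁻¹ ≤ ∏ _p ∈ T', Real.exp (2 / Y) := by
      apply prod_le_prod
      · intro p hp
        linarith [one_le_fac (hT'p p hp).1.two_le]
      · intro p hp
        have hpY : (Y : ℝ) ≤ p := by exact_mod_cast (hT'p p hp).2.1.le
        have hp0 : (0 : ℝ) < p := by linarith
        have hq : 1 / (p : ℝ) ≤ 1 / Y := one_div_le_one_div_of_le (by linarith) hpY
        have hq3 : 1 / (Y : ℝ) ≤ 1 / 2 := one_div_le_one_div_of_le (by norm_num) (by linarith)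
        have h3 : 0 < 1 - 1 / (p : ℝ) := by linarith
        have h4 : (1 - 1 / (p : ℝ))⁻¹ ≤ 1 + 2 / Y := by
          rw [← one_div, div_le_iff₀ h3]
          have e : (2 : ℝ) / Y = 2 * (1 / Y) := by ring
          rw [e]
          have : 0 ≤ 1 / (Y : ℝ) := by positivity
          nlinarith
        have h5 := Real.add_one_le_exp (2 / (Y : ℝ))
        linarith
    refine h1.trans ?_
    rw [prod_const, ← Real.exp_nat_mul]
    apply Real.exp_le_exp.2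
    calc (T'.card : ℝ) * (2 / Y) ≤ 2 * E * Y * (2 / Y) := mul_le_mul_of_nonneg_right hcard (by positivity)
      _ = 4 * E := by field_simp; ring
  have hll : Real.log Y ≤ 2 * Real.log (Real.log N) := by
    have h1 : (Y : ℝ) ≤ Real.log N ^ 2 := by nlinarith
    have h2 := Real.log_le_log (by linarith) h1
    rw [Real.log_pow] at h2
    push_cast at h2
    exact h2
  have hW : W1 Y ≤ b₀ * (2 * Real.log (Real.log N)) :=
    ((hM Y hYn).2).trans (mul_le_mul_of_nonneg_left hll hb₀.le)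
  have hll0 : 0 ≤ Real.log (Real.log N) := Real.log_nonneg (by linarith)
  calc (∏ p ∈ T.filter (fun p => p ≤ Y), (1 - 1 / (p : ℝ))⁻¹) * ∏ p ∈ T', (1 - 1 / (p : ℝ))⁻¹
      ≤ (b₀ * (2 * Real.log (Real.log N))) * Real.exp (4 * E) := by
        apply mul_le_mul (s1.trans hW) s2 _ (by positivity)
        exact prod_nonneg fun p hp => by linarith [one_le_fac (hT'p p hp).1.two_le]
    _ = _ := by ring

end Pool.Agent.H563.PL
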