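import Pool.Agent.H563.PL.Pair

/-!
# Zeros of integer polynomials modulo primes
-/

set_option autoImplicit false

namespace Pool.Agent.H563.PL

open Finset Polynomial

/-- the residue classes modulo `l` of the zeros of `f` modulo `l` -/
noncomputable def roots (f : ℤ[X]) (l : ℕ) : Finset ℕ := (range l).filter (fun n => (l : ℤ) ∣ f.eval (n : ℤ))

lemma mem_roots {f : ℤ[X]} {l n : ℕ} : n ∈ roots f l ↔ n < l ∧ (l : ℤ) ∣ f.eval (n : ℤ) := by
  unfold roots
  rw [mem_filter, mem_range]

lemma mod_mem_roots {f : ℤ[X]} {l n : ℕ} (hl : 0 < l) : n % l ∈ roots f l ↔ (l : ℤ) ∣ f.eval (n : ℤ) := by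
  rw [mem_roots]
  have h1 : (l : ℤ) ∣ f.eval (n : ℤ) - f.eval ((n % l : ℕ) : ℤ) := by
    refine dvd_trans ?_ (Polynomial.sub_dvd_eval_sub (n : ℤ) ((n % l : ℕ) : ℤ) f)
    have h2 := Nat.div_add_mod n l
    refine ⟨((n / l : ℕ) : ℤ), ?_⟩
    have h3 : ((l * (n / l) + n % l : ℕ) : ℤ) = n := by rw [h2]
    push_cast at h3 ⊢
    linarith
  constructor
  · rintro ⟨-, h2⟩
    have := dvd_add h1 h2
    rwa [sub_add_cancel] at this
  · intro h2
    refine ⟨Nat.mod_lt _ hl, ?_⟩
    have := dvd_sub h2 h1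
    rwa [sub_sub_cancel] at this

lemma roots_mul {f g : ℤ[X]} {l : ℕ} (hl : l.Prime) : roots (f * g) l = roots f l ∪ roots g l := by
  classical
  ext n
  rw [mem_union, mem_roots, mem_roots, mem_roots, eval_mul]
  constructor
  · rintro ⟨h1, h2⟩
    rcases (Nat.prime_iff_prime_int.1 hl).dvd_or_dvd h2 with h | h
    · exact Or.inl ⟨h1, h⟩
    · exact Or.inr ⟨h1, h⟩
  · rintro (⟨h1, h2⟩ | ⟨h1, h2⟩)
    · exact ⟨h1, h2.mul_right _⟩
    · exact ⟨h1, h2.mul_left _⟩

/-- the number of the zeros is at most the degree -/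
lemma roots_card_le0 {f : ℤ[X]} {l : ℕ} (hl : l.Prime) (h : f.map (Int.castRingHom (ZMod l)) ≠ 0) :
    (roots f l).card ≤ f.natDegree := by
  classical
  have : Fact l.Prime := ⟨hl⟩
  obtain ⟨g, hg⟩ : ∃ g : (ZMod l)[X], g = f.map (Int.castRingHom (ZMod l)) := ⟨_, rfl⟩
  rw [← hg] at h
  have hev : ∀ n : ℕ, g.eval ((n : ℤ) : ZMod l) = ((f.eval (n : ℤ) : ℤ) : ZMod l) := by
    intro n
    rw [hg, eval_intCast_map]
    simp
  have h1 : (roots f l).image (fun n : ℕ => ((n : ℤ) : ZMod l)) ⊆ g.roots.toFinset := by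
    intro x hx
    rw [mem_image] at hx
    obtain ⟨n, hn, rfl⟩ := hx
    rw [Multiset.mem_toFinset, Polynomial.mem_roots h, IsRoot.def, hev]
    exact (ZMod.intCast_zmod_eq_zero_iff_dvd _ _).2 (mem_roots.1 hn).2
  have h2 : ((roots f l).image (fun n : ℕ => ((n : ℤ) : ZMod l))).card = (roots f l).card := by
    apply card_image_of_injOn
    intro n hn m hm hnm
    rw [mem_coe, mem_roots] at hn hm
    simp only [Int.cast_natCast] at hnm
    have h3 := (ZMod.natCast_eq_natCast_iff' n m l).1 hnm
    rwa [Nat.mod_eq_of_lt hn.1, Nat.mod_eq_of_lt hm.1] at h3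
  rw [← h2]
  refine (card_le_card h1).trans ?_
  refine (Multiset.toFinset_card_le _).trans ?_
  refine (card_roots' g).trans ?_
  rw [hg]
  exact natDegree_map_le

lemma roots_card_le {f : ℤ[X]} {l : ℕ} (hl : l.Prime) (h : (roots f l).card < l) :
    (roots f l).card ≤ f.natDegree := by
  classical
  have : Fact l.Prime := ⟨hl⟩
  apply roots_card_le0 hl
  intro h0
  have : roots f l = range l := by
    apply filter_true_of_mem
    intro n _
    have h1 : (f.map (Int.castRingHom (ZMod l))).eval ((n : ℤ) : ZMod l) = ((f.eval (n : ℤ) : ℤ) : ZMod l) := by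
      rw [eval_intCast_map]
      simp
    rw [h0, eval_zero] at h1
    exact (ZMod.intCast_zmod_eq_zero_iff_dvd _ _).1 h1.symm
  rw [this, card_range] at h
  omega

lemma roots_card_monic {f : ℤ[X]} {l : ℕ} (hl : l.Prime) (h : f.Monic) : (roots f l).card ≤ f.natDegree := by
  have : Fact l.Prime := ⟨hl⟩
  exact roots_card_le0 hl (h.map _).ne_zero

/-- the resultant: a nonzero number of bounded size divisible by the primes for which there is a common zero -/
lemma res_ex {f g : ℤ[X]} {d H : ℕ} (hf : f.natDegree ≤ d) (hg : g.natDegree ≤ d) (hf1 : 1 ≤ f.natDegree)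
    (hH : 1 ≤ H) (hfH : ∀ i, |f.coeff i| ≤ H) (hgH : ∀ i, |g.coeff i| ≤ H)
    (hcop : IsCoprime (f.map (Int.castRingHom ℚ)) (g.map (Int.castRingHom ℚ))) :
    ∃ R : ℕ, 0 < R ∧ R ≤ (2 * d).factorial * H ^ (2 * d) ∧
      ∀ (l : ℕ) (n : ℤ), (l : ℤ) ∣ f.eval n → (l : ℤ) ∣ g.eval n → l ∣ R := by
  obtain ⟨r, hr⟩ : ∃ r, r = resultant f g := ⟨_, rfl⟩
  have hinj : Function.Injective (Int.castRingHom ℚ) := RingHom.injective_int _
  have hf0 : f ≠ 0 := by
    rintro rfl
    simp at hf1
  have hr0 : r ≠ 0 := by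
    intro h0
    have h1 : resultant (f.map (Int.castRingHom ℚ)) (g.map (Int.castRingHom ℚ)) = 0 := by
      have h2 := resultant_map_map f g f.natDegree g.natDegree (Int.castRingHom ℚ)
      rw [natDegree_map_eq_of_injective hinj, natDegree_map_eq_of_injective hinj, h2, ← hr, h0, map_zero]
    exact (resultant_eq_zero_iff.1 h1).2 hcop
  refine ⟨r.natAbs, Int.natAbs_pos.2 hr0, ?_, ?_⟩
  · have hbd : |r| ≤ ((f.natDegree + g.natDegree).factorial * H ^ (f.natDegree + g.natDegree) : ℕ) := by
      have hentry : ∀ i j, AbsoluteValue.abs (sylvester f g f.natDegree g.natDegree i j) ≤ (H : ℤ) := by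
        intro i j
        have hH0 : (0 : ℤ) ≤ H := by positivity
        rw [AbsoluteValue.abs_apply]
        unfold sylvester
        rw [Matrix.of_apply]
        induction j using Fin.addCases with
        | left j =>
          rw [Fin.addCases_left]
          split_ifs
          · exact hgH _
          · simpa using hH0
        | right j =>
          rw [Fin.addCases_right]
          split_ifs
          · exact hfH _
          · simpa using hH0
      have h1 := Matrix.det_le hentry
      rw [AbsoluteValue.abs_apply, Fintype.card_fin, nsmul_eq_mul] at h1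
      rw [hr]
      unfold resultant
      push_cast
      exact h1
    have h2 : r.natAbs ≤ (f.natDegree + g.natDegree).factorial * H ^ (f.natDegree + g.natDegree) := by
      have : ((r.natAbs : ℕ) : ℤ) ≤ ((f.natDegree + g.natDegree).factorial * H ^ (f.natDegree + g.natDegree) : ℕ) := by
        rw [Int.natCast_natAbs]
        exact hbd
      exact_mod_cast this
    refine h2.trans ?_
    apply Nat.mul_le_mul
    · exact Nat.factorial_le (by omega)
    · exact Nat.pow_le_pow_right hH (by omega)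
  · intro l n h1 h2
    obtain ⟨p, q, -, -, h3⟩ := exists_mul_add_mul_eq_C_resultant f g le_rfl le_rfl (Or.inl (by omega))
    have h4 := congrArg (Polynomial.eval n) h3
    rw [eval_add, eval_mul, eval_mul, eval_C, ← hr] at h4
    have h5 : (l : ℤ) ∣ r := by
      rw [← h4]
      exact dvd_add (h1.mul_right _) (h2.mul_right _)
    exact Int.natCast_dvd.1 h5

end Pool.Agent.H563.PL
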