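import Pool.Agent.H563.PL.Fin

/-!
# Sets of polynomials with few arguments
-/

set_option autoImplicit false

namespace Pool.Agent.H563.PL

open Finset Polynomial
open Pool.Agent.Y843.HS (Pr VV Sv VV_split Pr_mem)
open Pool.Agent.Y843.AC (OK Av APs)
open Pool.Agent.K4H8.DP

/-- the classes for one prime -/
lemma classes {D d : ℕ} {Z₀ : Finset ℕ} (l : ℕ) (hl : l.Prime) (h1 : Z₀.card + d ≤ D) (h2 : Z₀.card < l)
    (h0 : ∀ c ∈ Z₀, c < l) : ∃ c : ℕ → ℕ, (∀ j, c j < l) ∧ (Z₀ ∪ (range d).image c).card < l ∧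
      (D < l → (∀ j < d, c j ∉ Z₀) ∧ Set.InjOn c (range d : Finset ℕ)) := by
  classical
  by_cases hD : D < l
  · -- `d` classes outside
    have h3 : d ≤ (range l \ Z₀).card := by
      have := le_card_sdiff Z₀ (range l)
      rw [card_range] at this
      omega
    obtain ⟨T, hT1, hT2⟩ := exists_subset_card_eq h3
    obtain ⟨e⟩ : Nonempty (Fin d ≃ T) := ⟨(finCongr hT2.symm).trans T.equivFin.symm⟩
    refine ⟨fun j => if h : j < d then (e ⟨j, h⟩).val else 0, ?_, ?_, ?_⟩
    · intro j
      by_cases h : j < d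
      · simp only [dif_pos h]
        have := hT1 (e ⟨j, h⟩).2
        rw [mem_sdiff, mem_range] at this
        exact this.1
      · simp only [dif_neg h]
        exact hl.pos
    · have h4 := card_union_le Z₀ ((range d).image (fun j => if h : j < d then (e ⟨j, h⟩).val else 0))
      have h5 := card_image_le (s := range d) (f := fun j => if h : j < d then (e ⟨j, h⟩).val else 0)
      rw [card_range] at h5
      omega
    · intro _
      refine ⟨?_, ?_⟩
      · intro j hj
        simp only [dif_pos hj]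
        have := hT1 (e ⟨j, hj⟩).2
        rw [mem_sdiff] at this
        exact this.2
      · intro i hi j hj hij
        rw [mem_coe, mem_range] at hi hj
        simp only [dif_pos hi, dif_pos hj] at hij
        have := e.injective (Subtype.ext hij)
        exact congrArg Fin.val this
  · -- one class
    have h3 : ¬ (range l ⊆ Z₀) := by
      intro h
      have := card_le_card h
      rw [card_range] at this
      omega
    rw [Finset.not_subset] at h3
    obtain ⟨r, hr1, hr2⟩ := h3
    rw [mem_range] at hr1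
    refine ⟨fun _ => (r + 1) % l, fun _ => Nat.mod_lt _ hl.pos, ?_, fun h => absurd h hD⟩
    have h4 : Z₀ ∪ (range d).image (fun _ => (r + 1) % l) ⊆ (range l).erase r := by
      intro x hx
      rw [mem_union] at hx
      rw [mem_erase, mem_range]
      rcases hx with hx | hx
      · exact ⟨fun e => hr2 (e ▸ hx), h0 x hx⟩
      · obtain ⟨j, -, rfl⟩ := mem_image.1 hx
        refine ⟨?_, Nat.mod_lt _ hl.pos⟩
        intro e
        rcases Nat.lt_or_ge (r + 1) l with h5 | h5
        · rw [Nat.mod_eq_of_lt h5] at e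
          omega
        · have : r + 1 = l := by omega
          rw [this, Nat.mod_self] at e
          have := hl.two_le
          omega
    have h5 := card_le_card h4
    rw [card_erase_of_mem (mem_range.2 hr1), card_range] at h5
    omega

/-- the classes of a polynomial for all the primes up to `z`, and a polynomial with these zeros -/
lemma pol_ex {D d : ℕ} (hd : 1 ≤ d) {Z₀ : ℕ → Finset ℕ} (hZ : ∀ l : ℕ, l.Prime → (Z₀ l).card + d ≤ D)
    (hZ2 : ∀ l : ℕ, l.Prime → (Z₀ l).card < l) (hZ3 : ∀ l : ℕ, l.Prime → ∀ c ∈ Z₀ l, c < l) (z : ℕ) (hz : D ≤ z) (W : ℕ)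
    (hW : W = primorial z) :
    ∃ F : ℤ → ℤ[X], ∃ T : ℕ → Finset ℕ, (∀ k, (F k).Monic ∧ (F k).natDegree = d ∧ (∀ i, |(F k).coeff i| ≤ W * (|k| + 1))) ∧
      (∀ k k', F k - F k' = C ((W : ℤ) * (k - k'))) ∧
      (∀ l : ℕ, l.Prime → l ≤ z → ∀ k, roots (F k) l = T l) ∧
      (∀ l : ℕ, l.Prime → l ≤ z → (Z₀ l ∪ T l).card < l) ∧
      (∀ l : ℕ, l.Prime → D < l → l ≤ z → (Z₀ l ∪ T l).card = (Z₀ l).card + d) := by
  classical
  have hW0 : 0 < W := by rw [hW]; exact primorial_pos z
  have hWZ : (0 : ℤ) < W := by exact_mod_cast hW0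
  choose! c hc1 hc2 hc3 using fun (l : ℕ) (hl : l.Prime) => classes l hl (hZ l hl) (hZ2 l hl) (hZ3 l hl)
  -- the zeros
  have hcrt : ∀ j : ℕ, ∃ e : ℕ, ∀ l : ℕ, l.Prime → l ≤ z → e % l = c l j := by
    intro j
    obtain ⟨b, hb⟩ := Nat.chineseRemainderOfFinset (fun l => c l j) (fun p => p) ((Ioc 0 z).filter Nat.Prime) (by
      intro p hp
      exact (mem_filter.1 hp).2.ne_zero) (by
      intro p hp q hq hpq
      rw [mem_coe, mem_filter] at hp hq
      exact (Nat.coprime_primes hp.2 hq.2).2 hpq)
    refine ⟨b, fun l hl hlz => ?_⟩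
    have h1 : b ≡ c l j [MOD l] := hb l (mem_filter.2 ⟨mem_Ioc.2 ⟨hl.pos, hlz⟩, hl⟩)
    have h3 : b % l = c l j % l := h1
    rw [h3, Nat.mod_eq_of_lt (hc1 l hl j)]
  choose e he using hcrt
  obtain ⟨P, hP⟩ : ∃ P : ℤ[X], P = ∏ j ∈ range d, (X - C (e j : ℤ)) := ⟨_, rfl⟩
  have hPm : P.Monic := by
    rw [hP]
    exact monic_prod_of_monic _ _ fun j _ => monic_X_sub_C _
  have hPd : P.natDegree = d := by
    rw [hP, natDegree_prod_of_monic _ _ fun j _ => monic_X_sub_C _]
    rw [sum_congr rfl (fun j _ => natDegree_X_sub_C _)]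
    simp
  obtain ⟨L, hL⟩ : ∃ L : ℤ → ℤ[X], L = fun k : ℤ =>
      ∑ i ∈ range d, C (P.coeff i % W + (if i = 0 then (W : ℤ) * k else 0)) * X ^ i := ⟨_, rfl⟩
  have hLc : ∀ k i, (L k).coeff i = if i < d then P.coeff i % W + (if i = 0 then (W : ℤ) * k else 0) else 0 := by
    intro k i
    rw [hL]
    simp only [finsetSum_coeff, coeff_C_mul_X_pow]
    rw [sum_ite_eq]
    simp only [mem_range]
  have hLd : ∀ k, (L k).degree < d := by
    intro k
    rw [degree_lt_iff_coeff_zero]
    intro i hi
    rw [hLc, if_neg (by omega)]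
  obtain ⟨F, hF⟩ : ∃ F : ℤ → ℤ[X], F = fun k => X ^ d + L k := ⟨_, rfl⟩
  have hFm : ∀ k, (F k).Monic := by
    intro k
    rw [hF]
    exact monic_X_pow_add (hLd k)
  have hFd : ∀ k, (F k).natDegree = d := by
    intro k
    have h1 : (F k).degree = d := by
      rw [hF]
      simp only
      rw [degree_add_eq_left_of_degree_lt, degree_X_pow]
      rw [degree_X_pow]
      exact hLd k
    exact natDegree_eq_of_degree_eq_some h1
  have hFc : ∀ k i, (F k).coeff i = (if i = d then 1 else 0) + (L k).coeff i := by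
    intro k i
    rw [hF]
    simp only [coeff_add, coeff_X_pow]
  have hdvd : ∀ k (n : ℤ), (W : ℤ) ∣ (F k).eval n - P.eval n := by
    intro k n
    rw [← eval_sub]
    have h1 : C (W : ℤ) ∣ F k - P := by
      rw [C_dvd_iff_dvd_coeff]
      intro i
      rw [coeff_sub, hFc, hLc]
      rcases lt_trichotomy i d with h | h | h
      · rw [if_neg (by omega), if_pos h]
        have h2 : (W : ℤ) ∣ P.coeff i % W - P.coeff i := by
          refine ⟨-(P.coeff i / W), ?_⟩
          have := Int.emod_add_mul_ediv (P.coeff i) W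
          linarith
        have h3 : (W : ℤ) ∣ (if i = 0 then (W : ℤ) * k else 0) := by
          split_ifs
          · exact dvd_mul_right _ _
          · exact dvd_zero _
        have h4 := dvd_add h2 h3
        convert h4 using 1
        ring
      · rw [if_pos h, if_neg (by omega), h]
        have h2 : P.coeff d = 1 := by
          have := hPm.coeff_natDegree
          rwa [hPd] at this
        rw [h2]
        simp
      · rw [if_neg (by omega), if_neg (by omega), coeff_eq_zero_of_natDegree_lt (by omega)]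
        simp
    obtain ⟨G, hG⟩ := h1
    rw [hG, eval_mul, eval_C]
    exact dvd_mul_right _ _
  have hPe : ∀ n : ℤ, P.eval n = ∏ j ∈ range d, (n - e j) := by
    intro n
    rw [hP, eval_prod]
    simp
  have hroots : ∀ l : ℕ, l.Prime → l ≤ z → ∀ k, roots (F k) l = (range d).image (c l) := by
    intro l hl hlz k
    have hlW : (l : ℤ) ∣ W := by
      have : l ∣ W := by
        rw [hW]
        exact (Nat.Prime.dvd_primorial_iff hl).2 hlz
      exact_mod_cast this
    ext n
    rw [mem_roots, mem_image]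
    constructor
    · rintro ⟨h1, h2⟩
      have h3 := dvd_sub h2 (hlW.trans (hdvd k n))
      rw [sub_sub_cancel, hPe, Prime.dvd_finsetProd_iff (Nat.prime_iff_prime_int.1 hl)] at h3
      obtain ⟨j, hj, h4⟩ := h3
      refine ⟨j, hj, ?_⟩
      have h5 : n % l = e j % l := by
        have h6 : (e j : ℤ) ≡ n [ZMOD l] := (Int.modEq_iff_dvd).2 h4
        have h7 := (Int.natCast_modEq_iff.1 h6)
        exact h7.symm
      rw [Nat.mod_eq_of_lt h1, he j l hl hlz] at h5
      exact h5.symm
    · rintro ⟨j, hj, h1⟩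
      have hnl : n < l := by
        rw [← h1]
        exact hc1 l hl j
      refine ⟨hnl, ?_⟩
      have h2 : (l : ℤ) ∣ P.eval (n : ℤ) := by
        rw [hPe]
        refine dvd_trans ?_ (dvd_prod_of_mem _ hj)
        have h6 : e j ≡ n [MOD l] := by
          show e j % l = n % l
          rw [he j l hl hlz, Nat.mod_eq_of_lt hnl, h1]
        exact (Int.modEq_iff_dvd).1 (Int.natCast_modEq_iff.2 h6)
      have h3 := dvd_add (hlW.trans (hdvd k n)) h2
      rwa [sub_add_cancel] at h3
  refine ⟨F, fun l => (range d).image (c l), ?_, ?_, hroots, ?_, ?_⟩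
  · intro k
    refine ⟨hFm k, hFd k, ?_⟩
    intro i
    rw [hFc, hLc]
    have hk0 : (0 : ℤ) ≤ |k| := abs_nonneg k
    have hW1 : (1 : ℤ) ≤ W := by omega
    rcases lt_trichotomy i d with h | h | h
    · rw [if_neg (by omega), if_pos h, zero_add]
      have h1 := Int.emod_nonneg (P.coeff i) hWZ.ne'
      have h2 := Int.emod_lt_of_pos (P.coeff i) hWZ
      split_ifs
      · refine (abs_add_le _ _).trans ?_
        rw [abs_of_nonneg h1, abs_mul, abs_of_pos hWZ]
        nlinarith
      · rw [add_zero, abs_of_nonneg h1]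
        nlinarith
    · rw [if_pos h, if_neg (by omega)]
      simp
      nlinarith
    · rw [if_neg (by omega), if_neg (by omega)]
      simp only [add_zero, abs_zero]
      positivity
  · intro k k'
    ext i
    rw [coeff_sub, hFc, hFc, hLc, hLc, coeff_C]
    rcases Nat.eq_zero_or_pos i with h | h
    · subst h
      rw [if_pos rfl, if_pos (show 0 < d by omega), if_pos (show 0 < d by omega), if_pos rfl, if_pos rfl]
      ring
    · rw [if_neg (show ¬ i = 0 by omega), if_neg (show ¬ i = 0 by omega), if_neg (show ¬ i = 0 by omega)]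
      ring
  · intro l hl _
    exact hc2 l hl
  · intro l hl hDl _
    obtain ⟨h1, h2⟩ := hc3 l hl hDl
    rw [card_union_of_disjoint, card_image_of_injOn h2, card_range]
    rw [disjoint_left]
    intro x hx hx2
    obtain ⟨j, hj, rfl⟩ := mem_image.1 hx2
    exact h1 j (mem_range.1 hj) hx

end Pool.Agent.H563.PL
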