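import Pool.Agent.H563.PL.Arg

/-!
# The sharpness
-/

set_option autoImplicit false

namespace Pool.Agent.H563.PL

open Finset Polynomial
open Pool.Agent.Y843.HS (Pr VV Sv VV_split Pr_mem)
open Pool.Agent.Y843.AC (OK Av APs)
open Pool.Agent.K4H8.DP

lemma roots_neg (f : ℤ[X]) (l : ℕ) : roots (-f) l = roots f l := by
  ext n
  rw [mem_roots, mem_roots, eval_neg, dvd_neg]

lemma Rough_neg {f : ℤ[X]} {w : ℝ} {n : ℕ} (h : Rough w (-f) n) : Rough w f n := by
  intro l hl hlw hd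
  apply h l hl hlw
  rw [eval_neg, dvd_neg]
  exact hd

/-- sets of `M` polynomials without a choice -/
lemma sharpP (d₀ d B : ℕ) (hd : 1 ≤ d) (κ : ℝ) (hκ : 0 < κ) : ∃ C : ℝ, 0 < C ∧ ∃ N₀ : ℕ, ∀ N : ℕ, N₀ ≤ N → ∀ N₁ : ℕ,
    ∀ f₀ : ℤ[X], f₀.natDegree ≤ d₀ → NoFixed f₀ → ∀ M t K : ℕ, (M : ℝ) * Real.sqrt N ≤ (N : ℝ) ^ B →
    C * K * order f₀ N < t * M * Real.log (Real.log N) ^ d →
    ∃ G : ℤ[X], G.Monic ∧ G.natDegree = d ∧ ∃ S : Finset ℤ[X], S.card = M ∧ Adm f₀ d (N ^ B) S ∧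
      (∀ f ∈ S, ∃ a : ℕ, f = Polynomial.C (a : ℤ) - G) ∧
      ¬ ∃ n : ℤ[X] → ℕ → ℕ, (∀ f ∈ S, ∀ i < t, n f i ∈ Ioc N₁ (N₁ + N) ∧ Rough ((N : ℝ) ^ κ) f₀ (n f i) ∧
        Rough (Real.log N / 4) f (n f i)) ∧ ∀ v, ((S ×ˢ range t).filter (fun y => n y.1 y.2 = v)).card ≤ K := by
  classical
  obtain ⟨C, hC, N₂, harg⟩ := arg_bound d₀ d κ hκ
  have ev1 := Real.tendsto_log_atTop.eventually (Filter.eventually_ge_atTop (4 * ((d₀ + d : ℕ) : ℝ) + 4))
  obtain ⟨x₀, hx₀⟩ := Filter.eventually_atTop.1 ev1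
  refine ⟨C, hC, max N₂ (max ⌈x₀⌉₊ 2), ?_⟩
  intro N hN N₁ f₀ hf₀ h0 M t K hM hbig
  have hNN : N₂ ≤ N := (le_max_left _ _).trans hN
  have hNx : ⌈x₀⌉₊ ≤ N := (le_max_left _ _).trans ((le_max_right _ _).trans hN)
  have hN2 : 2 ≤ N := (le_max_right _ _).trans ((le_max_right _ _).trans hN)
  have hNr : (0 : ℝ) < N := by exact_mod_cast (by omega : 0 < N)
  have hlog := hx₀ N ((Nat.le_ceil _).trans (by exact_mod_cast hNx))
  have hlog0 : 0 < Real.log N := by
    have : (0 : ℝ) ≤ ((d₀ + d : ℕ) : ℝ) := Nat.cast_nonneg _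
    linarith
  obtain ⟨z, hz⟩ : ∃ z : ℕ, z = ⌊Real.log N / 4⌋₊ := ⟨_, rfl⟩
  have hzD : d₀ + d ≤ z := by
    rw [hz]
    apply Nat.le_floor
    linarith
  have hg := good_of h0 hf₀
  have h0c : ∀ l : ℕ, l.Prime → (roots f₀ l).card ≤ d₀ := fun l hl => (hg l hl).1
  obtain ⟨F, T, hF1, hF2, hF3, hF4, hF5⟩ := pol_ex (D := d₀ + d) (d := d) hd (Z₀ := roots f₀)
    (fun l hl => by have := h0c l hl; omega) (fun l hl => h0 l hl) (fun l hl => (hg l hl).2.2) z hzD (primorial z) rfl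
  have hW0 : (0 : ℤ) < (primorial z : ℤ) := by exact_mod_cast primorial_pos z
  -- the size of the primorial
  have hWs : (primorial z : ℝ) ≤ Real.sqrt N := by
    have h1 : ((primorial z : ℕ) : ℝ) ≤ (4 : ℝ) ^ z := by exact_mod_cast primorial_le_four_pow z
    have hz4 : (z : ℝ) ≤ Real.log N / 4 := by
      rw [hz]
      exact Nat.floor_le (by positivity)
    apply Real.le_sqrt_of_sq_le
    have h2 : ((primorial z : ℕ) : ℝ) ^ 2 ≤ ((4 : ℝ) ^ z) ^ 2 := pow_le_pow_left₀ (by positivity) h1 2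
    refine h2.trans ?_
    rw [← Real.log_le_log_iff (by positivity) hNr, Real.log_pow, Real.log_pow]
    have h3 : Real.log 4 ≤ 2 := by
      have : Real.log 4 = 2 * Real.log 2 := by
        rw [show (4 : ℝ) = 2 ^ 2 by norm_num, Real.log_pow]
        push_cast
        ring
      rw [this]
      linarith [Real.log_two_lt_d9]
    have h4 : 0 ≤ Real.log 4 := Real.log_nonneg (by norm_num)
    push_cast
    have h5 : (z : ℝ) * Real.log 4 ≤ (Real.log N / 4) * 2 := mul_le_mul hz4 h3 h4 (by positivity)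
    linarith
  -- the polynomials
  obtain ⟨E, hE⟩ : ∃ E : ℕ → ℤ[X], E = fun k : ℕ => -F (-(k : ℤ)) := ⟨_, rfl⟩
  have hEd : ∀ k, (E k).natDegree = d := by
    intro k
    rw [hE]
    simp only [natDegree_neg]
    exact (hF1 _).2.1
  have hE0 : ∀ k : ℕ, E k = Polynomial.C (((primorial z * k : ℕ) : ℤ)) - F 0 := by
    intro k
    have h1 := hF2 0 (-(k : ℤ))
    rw [hE]
    simp only
    have h2 : Polynomial.C (((primorial z * k : ℕ) : ℤ)) = F 0 - F (-(k : ℤ)) := by
      rw [h1]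
      push_cast
      congr 1
      ring
    rw [h2]
    ring
  have hEsub : ∀ k k' : ℕ, E k - E k' = Polynomial.C ((primorial z : ℤ) * ((k : ℤ) - k')) := by
    intro k k'
    rw [hE0, hE0]
    push_cast
    rw [mul_sub, Polynomial.C_sub]
    ring
  have hinj : ∀ k k', E k = E k' → k = k' := by
    intro k k' h
    have h1 := hEsub k k'
    rw [h, sub_self] at h1
    have h2 := (C_eq_zero.1 h1.symm)
    rcases mul_eq_zero.1 h2 with h3 | h3
    · omega
    · omega
  have hEr : ∀ k l, roots (E k) l = roots (F (-(k : ℤ))) l := by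
    intro k l
    rw [hE]
    exact roots_neg _ _
  have hnf : ∀ k, NoFixed (f₀ * E k) := by
    intro k l hl
    rw [roots_mul hl, hEr]
    by_cases h : l ≤ z
    · rw [hF3 l hl h]
      exact hF4 l hl h
    · have h1 := roots_card_monic hl (hF1 (-(k : ℤ))).1
      rw [(hF1 _).2.1] at h1
      have h2 := h0c l hl
      have h3 := card_union_le (roots f₀ l) (roots (F (-(k : ℤ))) l)
      omega
  refine ⟨F 0, (hF1 0).1, (hF1 0).2.1, (range M).image E, ?_, ⟨?_, ?_⟩, ?_, ?_⟩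
  · rw [card_image_of_injective _ (fun a b h => hinj a b h), card_range]
  · intro f hf
    obtain ⟨k, hk, rfl⟩ := mem_image.1 hf
    rw [mem_range] at hk
    obtain ⟨g1, g2, g3⟩ := hF1 (-(k : ℤ))
    refine ⟨by rw [hEd]; exact hd, (hEd k).le, ?_, hnf k⟩
    intro i
    have e : |(E k).coeff i| = |(F (-(k : ℤ))).coeff i| := by
      rw [hE]
      simp only [coeff_neg, abs_neg]
    rw [e]
    refine (g3 i).trans ?_
    rw [abs_neg, Nat.abs_cast]
    have h1 : (primorial z : ℝ) * (k + 1) ≤ (N : ℝ) ^ B := by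
      calc (primorial z : ℝ) * (k + 1) ≤ Real.sqrt N * M := by
            apply mul_le_mul hWs _ (by positivity) (by positivity)
            exact_mod_cast hk
        _ = M * Real.sqrt N := by ring
        _ ≤ _ := hM
    exact_mod_cast h1
  · intro f hf g hg hfg
    obtain ⟨k, hk, rfl⟩ := mem_image.1 hf
    obtain ⟨k', hk', rfl⟩ := mem_image.1 hg
    have h1 := hEsub k k'
    have hne : ((primorial z : ℤ) * ((k : ℤ) - k') : ℤ) ≠ 0 := by
      apply mul_ne_zero hW0.ne'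
      intro h
      apply hfg
      rw [show k = k' by omega]
    obtain ⟨u, hu⟩ : ∃ u : ℤ, u = (primorial z : ℤ) * ((k : ℤ) - k') := ⟨_, rfl⟩
    rw [← hu] at h1 hne
    have hur : (u : ℚ) ≠ 0 := by exact_mod_cast hne
    have h2 : (E k).map (Int.castRingHom ℚ) - (E k').map (Int.castRingHom ℚ) = Polynomial.C (u : ℚ) := by
      rw [← Polynomial.map_sub, h1, map_C]
      rfl
    refine ⟨Polynomial.C (u : ℚ)⁻¹, -Polynomial.C (u : ℚ)⁻¹, ?_⟩
    calc Polynomial.C (u : ℚ)⁻¹ * (E k).map (Int.castRingHom ℚ) + -Polynomial.C (u : ℚ)⁻¹ * (E k').map (Int.castRingHom ℚ)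
        = Polynomial.C (u : ℚ)⁻¹ * ((E k).map (Int.castRingHom ℚ) - (E k').map (Int.castRingHom ℚ)) := by ring
      _ = 1 := by rw [h2, ← C_mul, inv_mul_cancel₀ hur, C_1]
  · intro f hf
    obtain ⟨k, hk, rfl⟩ := mem_image.1 hf
    exact ⟨primorial z * k, hE0 k⟩
  · rintro ⟨n, hn1, hn2⟩
    obtain ⟨R, hR⟩ : ∃ R, R = (((range M).image E) ×ˢ range t).image (fun y => n y.1 y.2) := ⟨_, rfl⟩
    have hT : ∀ l : ℕ, l.Prime → l ≤ z → (T l).card ≤ d ∧ ∀ c ∈ T l, c < l := by
      intro l hl hlz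
      rw [← hF3 l hl hlz 0]
      refine ⟨?_, fun c hc => (mem_roots.1 hc).1⟩
      have := roots_card_monic hl (hF1 0).1
      rwa [(hF1 0).2.1] at this
    have h1 := harg N hNN N₁ (roots f₀) hg T z hz hF4 hT (fun l hl hDl hlz => hF5 l hl hDl hlz) R (by
      intro v hv
      rw [hR] at hv
      obtain ⟨⟨f, i⟩, hy, rfl⟩ := mem_image.1 hv
      rw [mem_product, mem_range] at hy
      exact (hn1 f hy.1 i hy.2).1) (by
      intro v hv
      rw [hR] at hv
      obtain ⟨⟨f, i⟩, hy, rfl⟩ := mem_image.1 hv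
      rw [mem_product, mem_range] at hy
      obtain ⟨g1, g2, g3⟩ := hn1 f hy.1 i hy.2
      obtain ⟨k, hk, hkf⟩ := mem_image.1 hy.1
      refine ⟨?_, ?_⟩
      · intro l hl hlN
        rw [mod_mem_roots hl.pos]
        exact g2 l hl hlN
      · intro l hl hlz
        rw [← hF3 l hl hlz (-(k : ℤ)), ← hEr, mod_mem_roots hl.pos, hkf]
        apply g3 l hl
        have hz4 : (z : ℝ) ≤ Real.log N / 4 := by
          rw [hz]
          exact Nat.floor_le (by positivity)
        have : (l : ℝ) ≤ z := by exact_mod_cast hlz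
        linarith)
    have h2 : M * t ≤ R.card * K := by
      have h3 := card_le_mul_card_image (s := ((range M).image E) ×ˢ range t) (f := fun y => n y.1 y.2) K (by
        intro v _
        exact hn2 v)
      rw [← hR, card_product, card_image_of_injective _ (fun a b h => hinj a b h), card_range, card_range] at h3
      rw [mul_comm R.card]
      exact h3
    have h3 : ((M : ℝ) * t) ≤ R.card * K := by exact_mod_cast h2
    have hL : 0 ≤ Real.log (Real.log N) ^ d := by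
      apply pow_nonneg
      apply Real.log_nonneg
      have : (0 : ℝ) ≤ ((d₀ + d : ℕ) : ℝ) := Nat.cast_nonneg _
      linarith
    have h4 : (t : ℝ) * M * Real.log (Real.log N) ^ d ≤ C * K * order f₀ N := by
      calc (t : ℝ) * M * Real.log (Real.log N) ^ d = (M * t) * Real.log (Real.log N) ^ d := by ring
        _ ≤ (R.card * K) * Real.log (Real.log N) ^ d := mul_le_mul_of_nonneg_right h3 hL
        _ = K * (R.card * Real.log (Real.log N) ^ d) := by ring
        _ ≤ K * (C * (N * VV (roots f₀) 0 N)) := mul_le_mul_of_nonneg_left h1 (Nat.cast_nonneg _)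
        _ = C * K * order f₀ N := by unfold order; ring
    linarith

end Pool.Agent.H563.PL
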