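import Pool.Agent.H563.QA.Cnt

/-!
# Sieve bounds for families of residue classes, uniformly in the family
-/

set_option autoImplicit false

namespace Pool.Agent.H563.PL

open Finset
open Pool.Agent.Y843.HS (Pr VV Sv VV_split Pr_mem)
open Pool.Agent.Y843.AC (OK Av APs)
open Pool.Agent.K4H8.DP

/-- families of classes with at most `D` classes and a free class modulo each prime -/
def Good (D : ℕ) (Z : ℕ → Finset ℕ) : Prop :=
  ∀ p : ℕ, p.Prime → (Z p).card ≤ D ∧ (Z p).card < p ∧ ∀ c ∈ Z p, c < p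

lemma Good.mono {D D' : ℕ} {Z : ℕ → Finset ℕ} (h : Good D Z) (hD : D ≤ D') : Good D' Z :=
  fun p hp => ⟨(h p hp).1.trans hD, (h p hp).2⟩

/-- the sieve bound in all intervals -/
lemma sbD (D : ℕ) (κ : ℝ) (hκ : 0 < κ) : ∃ C : ℝ, 0 < C ∧ ∃ X₀ : ℕ, ∀ X A : ℕ, X₀ ≤ X →
    ∀ Z : ℕ → Finset ℕ, OK D κ X Z →
    ∀ S ⊆ Ioc A (A + X), (∀ n ∈ S, Av κ X Z n) → (S.card : ℝ) ≤ C * X * VV Z 0 ⌊(X : ℝ) ^ κ⌋₊ := by
  classical
  obtain ⟨C, hC, B, X₀, h0⟩ := Pool.Agent.Y843.AC.upa_all D 1 κ le_rfl hκ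
  refine ⟨C, hC, max X₀ 1, fun X A hX Z hZ S hS hA => ?_⟩
  obtain ⟨D', hD'⟩ : ∃ D' : ℕ, D' = ⌈Real.log X ^ B⌉₊ + 1 := ⟨_, rfl⟩
  have hD1 : Real.log X ^ B ≤ D' := by
    rw [hD']
    push_cast
    linarith [Nat.le_ceil (Real.log X ^ B)]
  have hD0 : (0 : ℝ) < D' := by
    rw [hD']
    push_cast
    positivity
  have h1 := h0 X A D' ((le_max_left _ _).trans hX) hD1 Z hZ S hS hA
  have h2 : (APs 1 D' S).card = S.card * D' := by
    have : APs 1 D' S = S ×ˢ Icc 1 D' := by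
      unfold APs
      apply filter_true_of_mem
      intro q hq j hj
      have : j = 0 := by omega
      subst this
      rw [zero_mul, add_zero]
      exact (mem_product.1 hq).1
    rw [this, card_product, Nat.card_Icc, Nat.add_sub_cancel]
  rw [h2] at h1
  push_cast at h1
  rw [pow_one] at h1
  have h3 : (S.card : ℝ) * D' ≤ (C * X * VV Z 0 ⌊(X : ℝ) ^ κ⌋₊) * D' := by
    calc (S.card : ℝ) * D' ≤ C * X * D' * VV Z 0 ⌊(X : ℝ) ^ κ⌋₊ := h1
      _ = _ := by ring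
  exact le_of_mul_le_mul_right h3 hD0

/-- the factor at one prime -/
lemma fac_low {D : ℕ} {Z : ℕ → Finset ℕ} (hZ : Good D Z) {p : ℕ} (hp : p.Prime) :
    1 / ((D : ℝ) + 1) ≤ 1 - ((Z p).card : ℝ) / p := by
  obtain ⟨h1, h2, -⟩ := hZ p hp
  have hp0 : (0 : ℝ) < p := by exact_mod_cast hp.pos
  have h1r : ((Z p).card : ℝ) ≤ D := by exact_mod_cast h1
  have h2r : ((Z p).card : ℝ) + 1 ≤ p := by exact_mod_cast h2
  have hD : (0 : ℝ) ≤ D := Nat.cast_nonneg D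
  rw [le_sub_comm, div_le_iff₀ hp0, one_sub_div (by positivity)]
  rcases le_total (p : ℝ) (D + 1) with h | h
  · rw [div_mul_eq_mul_div, le_div_iff₀ (by positivity)]
    nlinarith
  · rw [div_mul_eq_mul_div, le_div_iff₀ (by positivity)]
    nlinarith

lemma fac_le_one (Z : ℕ → Finset ℕ) (p : ℕ) : 1 - ((Z p).card : ℝ) / p ≤ 1 := by
  have : 0 ≤ ((Z p).card : ℝ) / p := by positivity
  linarith

lemma fac_pos {D : ℕ} {Z : ℕ → Finset ℕ} (hZ : Good D Z) {p : ℕ} (hp : p.Prime) : 0 < 1 - ((Z p).card : ℝ) / p :=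
  lt_of_lt_of_le (by positivity) (fac_low hZ hp)

lemma VV_pos {D : ℕ} {Z : ℕ → Finset ℕ} (hZ : Good D Z) (x y : ℕ) : 0 < VV Z x y := by
  unfold VV
  apply prod_pos
  intro p hp
  exact fac_pos hZ (Pr_mem.1 hp).2

lemma VV_le_one {D : ℕ} {Z : ℕ → Finset ℕ} (hZ : Good D Z) (x y : ℕ) : VV Z x y ≤ 1 := by
  unfold VV
  apply prod_le_one
  · intro p hp
    exact (fac_pos hZ (Pr_mem.1 hp).2).le
  · intro p _
    exact fac_le_one Z p

lemma VV_anti {D : ℕ} {Z : ℕ → Finset ℕ} (hZ : Good D Z) {x y : ℕ} (h : x ≤ y) : VV Z 0 y ≤ VV Z 0 x := by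
  rw [← VV_split Z (Nat.zero_le x) h]
  have h1 := VV_pos hZ 0 x
  have h2 := VV_le_one hZ x y
  nlinarith

lemma Good.sv {D : ℕ} {Z : ℕ → Finset ℕ} (hZ : Good D Z) (x y : ℕ) : Sv D x y Z := by
  intro p hp
  obtain ⟨h1, -, h3⟩ := hZ p (Pr_mem.1 hp).2
  exact ⟨h1, h3⟩

/-- the sieving limit does not matter -/
lemma compD (D : ℕ) (κ : ℝ) (hκ : 0 < κ) : ∃ C : ℝ, 0 < C ∧ ∃ N₀ : ℕ, ∀ N : ℕ, N₀ ≤ N → ∀ Z : ℕ → Finset ℕ, Good D Z →
    VV Z 0 ⌊(N : ℝ) ^ κ⌋₊ ≤ C * VV Z 0 N := by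
  obtain ⟨L, hL⟩ : ∃ L : ℕ, L = ⌈2 / κ⌉₊ := ⟨_, rfl⟩
  obtain ⟨c, hc, R₀, h⟩ := Pool.Agent.Y79.HS.den D L
  obtain ⟨Y₀, hY₀, hr⟩ := Pool.Agent.H563.AG.root_k κ hκ
  have ev := (tendsto_rpow_atTop hκ).eventually (Filter.eventually_ge_atTop ((R₀ : ℝ) + 1))
  obtain ⟨x₀, hx₀⟩ := Filter.eventually_atTop.1 ev
  refine ⟨1 / c + 1, by positivity, max (max Y₀ ⌈x₀⌉₊) 1, fun N hN Z hZ => ?_⟩
  obtain ⟨r1, r2, r3⟩ := hr N ((le_max_left _ _).trans ((le_max_left _ _).trans hN))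
  have hx := hx₀ N ((Nat.le_ceil _).trans (by exact_mod_cast (le_max_right _ _).trans ((le_max_left _ _).trans hN)))
  have hN1 : 1 ≤ N := (le_max_right _ _).trans hN
  obtain ⟨y, hy⟩ : ∃ y, y = ⌊(N : ℝ) ^ κ⌋₊ := ⟨_, rfl⟩
  rw [← hy] at r1 r2 ⊢
  have hR : R₀ ≤ y := by
    rw [hy]
    apply Nat.le_floor
    linarith
  have hVN := VV_pos hZ 0 N
  rcases le_or_gt y N with hyN | hyN
  · have hyL : N ≤ y ^ L := by
      have h1 : Real.log N ≤ Real.log ((y ^ L : ℕ) : ℝ) := by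
        push_cast
        rw [Real.log_pow]
        have h2 : 2 / κ ≤ L := by rw [hL]; exact Nat.le_ceil _
        have h3 : 0 ≤ Real.log y := by
          have : (0 : ℝ) ≤ κ / 2 * Real.log N := by positivity
          linarith
        calc Real.log N = 2 / κ * (κ / 2 * Real.log N) := by field_simp
          _ ≤ 2 / κ * Real.log y := mul_le_mul_of_nonneg_left r2 (by positivity)
          _ ≤ L * Real.log y := mul_le_mul_of_nonneg_right h2 h3
      have h2 := (Real.log_le_log_iff (by exact_mod_cast hN1) (by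
        have : 0 < y ^ L := pow_pos (by omega) _
        exact_mod_cast this)).1 h1
      exact_mod_cast h2
    have h1 := h y N hR hyL Z (hZ.sv y N)
    have h2 : VV Z 0 y * VV Z y N = VV Z 0 N := VV_split Z (Nat.zero_le y) hyN
    have h3 := VV_pos hZ 0 y
    have h4 : VV Z 0 y * c ≤ VV Z 0 N := by
      rw [← h2]
      exact mul_le_mul_of_nonneg_left h1 h3.le
    have h5 : VV Z 0 y ≤ 1 / c * VV Z 0 N := by
      rw [one_div_mul_eq_div, le_div_iff₀ hc]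
      exact h4
    linarith
  · have h1 : VV Z 0 y ≤ VV Z 0 N := VV_anti hZ hyN.le
    have : 0 ≤ 1 / c * VV Z 0 N := by positivity
    linarith

/-- the factor at one prime, against a power of `1 - 1 / p` -/
lemma fac_pow {D : ℕ} {Z : ℕ → Finset ℕ} (hZ : Good D Z) {p : ℕ} (hp : p.Prime) :
    (if p ≤ 2 * D then 1 / ((D : ℝ) + 1) else 1) * (1 - 1 / (p : ℝ)) ^ (2 * D) ≤ 1 - ((Z p).card : ℝ) / p := by
  have hp0 : (0 : ℝ) < p := by exact_mod_cast hp.pos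
  have hp2 : (2 : ℝ) ≤ p := by exact_mod_cast hp.two_le
  have hx0 : 0 ≤ 1 - 1 / (p : ℝ) := by
    have : 1 / (p : ℝ) ≤ 1 := by rw [div_le_one hp0]; linarith
    linarith
  have hx1 : 1 - 1 / (p : ℝ) ≤ 1 := by
    have : 0 ≤ 1 / (p : ℝ) := by positivity
    linarith
  split_ifs with h
  · refine le_trans ?_ (fac_low hZ hp)
    calc 1 / ((D : ℝ) + 1) * (1 - 1 / (p : ℝ)) ^ (2 * D) ≤ 1 / ((D : ℝ) + 1) * 1 :=
          mul_le_mul_of_nonneg_left (pow_le_one₀ hx0 hx1) (by positivity)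
      _ = _ := mul_one _
  · push Not at h
    have h1 : ((Z p).card : ℝ) ≤ D := by exact_mod_cast (hZ p hp).1
    obtain ⟨x, hx⟩ : ∃ x, x = 1 / (p : ℝ) := ⟨_, rfl⟩
    have hxp : 0 < x := by rw [hx]; positivity
    have h2D : 2 * (D : ℝ) * x ≤ 1 := by
      rw [hx, mul_one_div, div_le_one hp0]
      exact_mod_cast h.le
    have hD : (0 : ℝ) ≤ D := Nat.cast_nonneg D
    rw [one_mul, ← hx]
    rw [← hx] at hx0 hx1
    have h2 : ((Z p).card : ℝ) / p ≤ D * x := by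
      rw [hx, mul_one_div]
      exact div_le_div_of_nonneg_right h1 hp0.le
    have h3 : (1 - x) ^ (2 * D) * (1 + 2 * D * x) ≤ 1 := by
      have b1 : 1 + ((2 * D : ℕ) : ℝ) * x ≤ (1 + x) ^ (2 * D) := one_add_mul_le_pow (by linarith) (2 * D)
      push_cast at b1
      calc (1 - x) ^ (2 * D) * (1 + 2 * D * x) ≤ (1 - x) ^ (2 * D) * (1 + x) ^ (2 * D) :=
            mul_le_mul_of_nonneg_left b1 (by positivity)
        _ = ((1 - x) * (1 + x)) ^ (2 * D) := (mul_pow _ _ _).symm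
        _ ≤ 1 := by
            apply pow_le_one₀
            · nlinarith
            · nlinarith
    have h4 : 1 ≤ (1 - D * x) * (1 + 2 * D * x) := by nlinarith [mul_nonneg hD hxp.le]
    have h5 : 0 < 1 + 2 * D * x := by positivity
    have h6 : (1 - x) ^ (2 * D) ≤ 1 - D * x := by
      by_contra hcon
      push Not at hcon
      nlinarith
    linarith

/-- the lower bound for the sieve product -/
lemma logsD (D : ℕ) : ∃ w : ℝ, 0 < w ∧ ∀ Z : ℕ → Finset ℕ, Good D Z → ∀ N : ℕ, 2 ≤ N →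
    w / Real.log N ^ (2 * D) ≤ VV Z 0 N := by
  classical
  obtain ⟨a₀, b₀, ha₀, hb₀, hM⟩ := Pool.Agent.Results.MP_7b7e48_nt.DeletedPrimes.mert_ex
  refine ⟨(1 / ((D : ℝ) + 1)) ^ (2 * D) * (1 / b₀) ^ (2 * D), by positivity, fun Z hZ N hN => ?_⟩
  have h1 := (hM N hN).2
  have hl : 0 < Real.log N := Real.log_pos (by exact_mod_cast (by omega : 1 < N))
  have h2 : (1 / ((D : ℝ) + 1)) ^ (2 * D) * (W1 N)⁻¹ ^ (2 * D) ≤ VV Z 0 N := by
    unfold VV
    rw [Pr_eq]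
    have hq : ∀ p ∈ (Ioc 0 N).filter Nat.Prime, 0 ≤ 1 - 1 / (p : ℝ) := by
      intro p hp
      have hp2 : (1 : ℝ) ≤ p := by exact_mod_cast (mem_filter.1 hp).2.one_le
      have : 1 / (p : ℝ) ≤ 1 := by rw [div_le_one (by linarith)]; exact hp2
      linarith
    have g1 : ∏ p ∈ (Ioc 0 N).filter Nat.Prime, ((if p ≤ 2 * D then 1 / ((D : ℝ) + 1) else 1) *
        (1 - 1 / (p : ℝ)) ^ (2 * D)) ≤ ∏ p ∈ (Ioc 0 N).filter Nat.Prime, (1 - ((Z p).card : ℝ) / p) := by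
      apply prod_le_prod
      · intro p hp
        apply mul_nonneg _ (pow_nonneg (hq p hp) _)
        split_ifs <;> positivity
      · intro p hp
        exact fac_pow hZ (mem_filter.1 hp).2
    refine le_trans ?_ g1
    rw [prod_mul_distrib, prod_pow, ← W1_prod]
    apply mul_le_mul_of_nonneg_right _ (pow_nonneg (prod_nonneg hq) _)
    rw [← prod_filter, prod_const]
    have hDle : 1 / ((D : ℝ) + 1) ≤ 1 := by
      rw [div_le_one (by positivity)]
      have : (0 : ℝ) ≤ D := Nat.cast_nonneg D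
      linarith
    apply pow_le_pow_of_le_one (by positivity) hDle
    calc (((Ioc 0 N).filter Nat.Prime).filter (fun p => p ≤ 2 * D)).card ≤ (Ioc 0 (2 * D)).card := by
          apply card_le_card
          intro p hp
          rw [mem_filter, mem_filter, mem_Ioc] at hp
          rw [mem_Ioc]
          exact ⟨hp.1.1.1, hp.2⟩
      _ = 2 * D := by rw [Nat.card_Ioc, Nat.sub_zero]
  refine le_trans ?_ h2
  rw [mul_div_assoc]
  apply mul_le_mul_of_nonneg_left _ (by positivity)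
  rw [← div_pow]
  apply pow_le_pow_left₀ (by positivity)
  have h3 : 1 / b₀ / Real.log N = (b₀ * Real.log N)⁻¹ := by field_simp
  rw [h3]
  exact inv_anti₀ (W1_pos N) h1

end Pool.Agent.H563.PL
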